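import Pool.Agent.Helper89.Stz.Defs

/-!
# MP_65a63f_an: elementary facts about the circle norm `nrm` (helper6)
-/

set_option autoImplicit false

namespace Stz.H6

open Finset

set_option linter.unusedSectionVars false

variable {A : ℕ} [NeZero A]

theorem A_pos : (0 : ℝ) < A := by
  have := Nat.pos_of_ne_zero (NeZero.ne A)
  exact_mod_cast this

theorem nrm_nonneg (x : ZMod A) : 0 ≤ nrm A x := by
  unfold nrm; positivity

theorem nrm_le_of_int (x : ZMod A) (k : ℤ) (hk : (k : ZMod A) = x) :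
    nrm A x ≤ |(k : ℝ)| / A := by
  unfold nrm
  have h1 : x.valMinAbs.natAbs ≤ k.natAbs := by
    apply ZMod.natAbs_min_of_le_div_two A x.valMinAbs k
    · rw [ZMod.coe_valMinAbs, hk]
    · exact ZMod.natAbs_valMinAbs_le x
  have h2 : |(x.valMinAbs : ℝ)| ≤ |(k : ℝ)| := by
    have h3 : ((x.valMinAbs.natAbs : ℕ) : ℝ) ≤ ((k.natAbs : ℕ) : ℝ) := by exact_mod_cast h1
    rw [← Int.cast_abs, ← Int.cast_abs, Int.abs_eq_natAbs, Int.abs_eq_natAbs]
    exact_mod_cast h1
  exact div_le_div_of_nonneg_right h2 (Nat.cast_nonneg A)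

theorem nrm_add_le (x y : ZMod A) : nrm A (x + y) ≤ nrm A x + nrm A y := by
  have h := nrm_le_of_int (x + y) (x.valMinAbs + y.valMinAbs) (by push_cast; simp)
  refine h.trans ?_
  unfold nrm
  rw [← add_div]
  apply div_le_div_of_nonneg_right _ (Nat.cast_nonneg A)
  push_cast
  exact abs_add_le _ _

theorem nrm_neg (x : ZMod A) : nrm A (-x) = nrm A x := by
  apply le_antisymm
  · have h := nrm_le_of_int (-x) (-x.valMinAbs) (by push_cast; simp)
    refine h.trans ?_
    unfold nrm; push_cast; rw [abs_neg]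
  · have h := nrm_le_of_int x (-(-x).valMinAbs) (by push_cast; simp)
    refine h.trans ?_
    unfold nrm; push_cast; rw [abs_neg]

theorem nrm_sub_le (x y : ZMod A) : nrm A (x - y) ≤ nrm A x + nrm A y := by
  rw [sub_eq_add_neg]
  exact (nrm_add_le x (-y)).trans (by rw [nrm_neg])

theorem nrm_natMul_le (k : ℕ) (x : ZMod A) : nrm A (k * x) ≤ k * nrm A x := by
  have h := nrm_le_of_int ((k : ZMod A) * x) (k * x.valMinAbs) (by push_cast; simp)
  refine h.trans ?_
  unfold nrm
  push_cast
  rw [abs_mul, Nat.abs_cast, mul_div_assoc]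

open Classical in
/-- number of points in a short arc -/
theorem card_nrm_le (c : ZMod A) (δ : ℝ) (hδ : 0 ≤ δ) :
    ((univ.filter fun x : ZMod A => nrm A (x - c) ≤ δ).card : ℝ) ≤ 2 * (A * δ) + 1 := by
  have hA := A_pos (A := A)
  set m : ℕ := ⌊(A : ℝ) * δ⌋₊ with hm
  have hAd : 0 ≤ (A : ℝ) * δ := by positivity
  have h1 : (univ.filter fun x : ZMod A => nrm A (x - c) ≤ δ).card ≤
      (Icc (-(m : ℤ)) m).card := by
    apply Finset.card_le_card_of_injOn (fun x => (x - c).valMinAbs)
    · intro x hx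
      have hx' : nrm A (x - c) ≤ δ := by simpa using hx
      unfold nrm at hx'
      rw [div_le_iff₀ hA] at hx'
      have h2 : ((x - c).valMinAbs.natAbs : ℝ) ≤ A * δ := by
        have h3 : (((x - c).valMinAbs.natAbs : ℕ) : ℝ) = |((x - c).valMinAbs : ℝ)| := by
          rw [Nat.cast_natAbs, Int.cast_abs]
        rw [h3]
        linarith [mul_comm δ (A : ℝ)]
      have h3 : (x - c).valMinAbs.natAbs ≤ m := Nat.le_floor h2
      simp only [Finset.coe_Icc, Set.mem_Icc]
      constructor
      · omega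
      · omega
    · intro x _ y _ hxy
      have h2 : ((x - c).valMinAbs : ZMod A) = ((y - c).valMinAbs : ZMod A) := by
        have : (x - c).valMinAbs = (y - c).valMinAbs := hxy
        rw [this]
      rw [ZMod.coe_valMinAbs, ZMod.coe_valMinAbs] at h2
      exact sub_left_injective h2
  have h4 : (Icc (-(m : ℤ)) m).card = 2 * m + 1 := by
    rw [Int.card_Icc]; omega
  rw [h4] at h1
  have h5 : (m : ℝ) ≤ A * δ := Nat.floor_le hAd
  have h6 : ((univ.filter fun x : ZMod A => nrm A (x - c) ≤ δ).card : ℝ) ≤ 2 * m + 1 := by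
    exact_mod_cast h1
  linarith

open Classical in
theorem card_nrm_le3 (c : ZMod A) (δ : ℝ) (hδ : 1 ≤ A * δ) :
    ((univ.filter fun x : ZMod A => nrm A (x - c) ≤ δ).card : ℝ) ≤ 3 * (A * δ) := by
  have hA := A_pos (A := A)
  have hd : 0 ≤ δ := by
    by_contra h
    push Not at h
    have := mul_neg_of_pos_of_neg hA h
    linarith
  have := card_nrm_le c δ hd
  linarith

end Stz.H6
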