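import Pool.Agent.Helper6.Stz.Nrm
import Pool.Agent.Helper3.Stz.ArithC

/-!
# MP_65a63f_an, module C7: the path bound (helper6)
-/

set_option autoImplicit false

namespace Stz

open Finset Stz.H6

theorem H6.big_gcd : ∀ ε : ℝ, 0 < ε → ∃ C : ℝ, 0 < C ∧ ∀ V g0 : ℕ, 1 ≤ V → 1 ≤ g0 →
    (∑ p ∈ ((Ico V (2 * V)) ×ˢ (Ico V (2 * V))).filter (fun p => g0 < Nat.gcd p.1 p.2),
      (sg p.1 : ℝ) * sg p.2) ≤ C * (V : ℝ) ^ (2 + ε) / Real.sqrt g0 := by
  intro ε hε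
  obtain ⟨C1, hC1, h1⟩ := sg_sum (ε / 3) (by positivity)
  obtain ⟨C2, hC2, h2⟩ := divisor_bound (ε / 3) (by positivity)
  refine ⟨C1 * C1 * C2 * 2 ^ (2 + ε), by positivity, ?_⟩
  intro V g0 hV hg
  have hV0 : (0 : ℝ) < V := by exact_mod_cast hV
  have hg0 : (0 : ℝ) < Real.sqrt g0 := Real.sqrt_pos.mpr (by exact_mod_cast hg)
  have h2V : (0 : ℝ) < 2 * V := by positivity
  -- the inner sum
  have hin : ∀ v1 ∈ Ico V (2 * V), (∑ v2 ∈ Ico V (2 * V),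
      if g0 < Nat.gcd v1 v2 then (sg v2 : ℝ) else 0) ≤
        C2 * (2 * V : ℝ) ^ (ε / 3) * (C1 * (2 * V : ℝ) ^ (1 + ε / 3) / Real.sqrt g0) := by
    intro v1 hv1
    rw [mem_Ico] at hv1
    have hv1pos : 1 ≤ v1 := le_trans hV hv1.1
    set D := v1.divisors.filter (fun e => g0 < e) with hD
    have step1 : (∑ v2 ∈ Ico V (2 * V), if g0 < Nat.gcd v1 v2 then (sg v2 : ℝ) else 0) ≤
        ∑ v2 ∈ Icc 1 (2 * V), ∑ e ∈ D, if e ∣ v2 then (sg v2 : ℝ) else 0 := by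
      have hsub : Ico V (2 * V) ⊆ Icc 1 (2 * V) := by
        intro x hx
        rw [mem_Ico] at hx
        rw [mem_Icc]
        omega
      refine le_trans ?_ (sum_le_sum_of_subset_of_nonneg hsub ?_)
      · apply sum_le_sum
        intro v2 hv2
        split_ifs with hc
        · have hmem : Nat.gcd v1 v2 ∈ D := by
            rw [hD, mem_filter, Nat.mem_divisors]
            exact ⟨⟨Nat.gcd_dvd_left _ _, by omega⟩, hc⟩
          have := single_le_sum (f := fun e => if e ∣ v2 then (sg v2 : ℝ) else 0)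
            (fun e _ => by positivity) hmem
          refine le_trans ?_ this
          rw [if_pos (Nat.gcd_dvd_right _ _)]
        · exact sum_nonneg (fun e _ => by positivity)
      · intro v2 _ _
        exact sum_nonneg (fun e _ => by positivity)
    refine step1.trans ?_
    rw [sum_comm]
    have step2 : ∀ e ∈ D, (∑ v2 ∈ Icc 1 (2 * V), if e ∣ v2 then (sg v2 : ℝ) else 0) ≤
        C1 * (2 * V : ℝ) ^ (1 + ε / 3) / Real.sqrt g0 := by
      intro e he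
      rw [hD, mem_filter, Nat.mem_divisors] at he
      rw [← sum_filter]
      have := h1 (2 * V) e (by omega) (by omega)
      refine this.trans ?_
      push_cast
      apply div_le_div_of_nonneg_left (by positivity) hg0
      apply Real.sqrt_le_sqrt
      exact_mod_cast he.2.le
    refine (sum_le_sum step2).trans ?_
    rw [sum_const, nsmul_eq_mul]
    apply mul_le_mul_of_nonneg_right _ (by positivity)
    have hcard : (D.card : ℝ) ≤ v1.divisors.card := by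
      exact_mod_cast card_filter_le _ _
    refine hcard.trans ((h2 v1 hv1pos).trans ?_)
    apply mul_le_mul_of_nonneg_left _ hC2.le
    apply Real.rpow_le_rpow (by positivity) _ (by positivity)
    exact_mod_cast hv1.2.le
  have hout : (∑ v1 ∈ Ico V (2 * V), (sg v1 : ℝ)) ≤ C1 * (2 * V : ℝ) ^ (1 + ε / 3) := by
    have := h1 (2 * V) 1 (by omega) le_rfl
    simp only [one_dvd, filter_true, Nat.cast_one, Real.sqrt_one, div_one] at this
    push_cast at this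
    refine le_trans (sum_le_sum_of_subset_of_nonneg ?_ (fun _ _ _ => by positivity)) this
    intro x hx
    rw [mem_Ico] at hx
    rw [mem_Icc]
    omega
  have hsum : (∑ p ∈ ((Ico V (2 * V)) ×ˢ (Ico V (2 * V))).filter
      (fun p => g0 < Nat.gcd p.1 p.2), (sg p.1 : ℝ) * sg p.2) =
      ∑ v1 ∈ Ico V (2 * V), (sg v1 : ℝ) * ∑ v2 ∈ Ico V (2 * V),
        if g0 < Nat.gcd v1 v2 then (sg v2 : ℝ) else 0 := by
    rw [sum_filter, sum_product]
    apply sum_congr rfl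
    intro v1 _
    rw [mul_sum]
    apply sum_congr rfl
    intro v2 _
    simp only
    split_ifs <;> simp
  rw [hsum]
  set K := C2 * (2 * V : ℝ) ^ (ε / 3) * (C1 * (2 * V : ℝ) ^ (1 + ε / 3) / Real.sqrt g0) with hK
  have hKnn : 0 ≤ K := by positivity
  calc (∑ v1 ∈ Ico V (2 * V), (sg v1 : ℝ) * ∑ v2 ∈ Ico V (2 * V),
        if g0 < Nat.gcd v1 v2 then (sg v2 : ℝ) else 0)
      ≤ ∑ v1 ∈ Ico V (2 * V), (sg v1 : ℝ) * K := by
        apply sum_le_sum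
        intro v1 hv1
        exact mul_le_mul_of_nonneg_left (hin v1 hv1) (by positivity)
    _ = (∑ v1 ∈ Ico V (2 * V), (sg v1 : ℝ)) * K := by rw [sum_mul]
    _ ≤ (C1 * (2 * V : ℝ) ^ (1 + ε / 3)) * K := mul_le_mul_of_nonneg_right hout hKnn
    _ = C1 * C1 * C2 * ((2 * V : ℝ) ^ (1 + ε / 3) * (2 * V : ℝ) ^ (1 + ε / 3) *
          (2 * V : ℝ) ^ (ε / 3)) / Real.sqrt g0 := by rw [hK]; ring
    _ = C1 * C1 * C2 * (2 * V : ℝ) ^ (2 + ε) / Real.sqrt g0 := by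
        rw [← Real.rpow_add h2V, ← Real.rpow_add h2V]
        congr 3
        ring
    _ = C1 * C1 * C2 * 2 ^ (2 + ε) * (V : ℝ) ^ (2 + ε) / Real.sqrt g0 := by
        rw [Real.mul_rpow (by norm_num) hV0.le]; ring

open Classical in
/-- number of middle points -/
theorem H6.mid_count : ∀ ε : ℝ, 0 < ε → ∃ C : ℝ, 0 < C ∧ ∀ (A V g0 : ℕ) [NeZero A], 1 ≤ V →
    1 ≤ g0 → Good (2 * V) A → ∀ (δ1 δ2 : ℝ), 1 ≤ A * δ1 → 1 ≤ A * δ2 →
    64 * (V : ℝ) ^ 4 * δ1 < 1 → 64 * (V : ℝ) ^ 2 * δ2 < 1 →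
    ∀ w1 w2 : ZMod A × ZMod A,
    ((univ.filter fun w : ZMod A × ZMod A => ∃ v1 v2 : ℕ, V ≤ v1 ∧ v1 < 2 * V ∧ V ≤ v2 ∧
      v2 < 2 * V ∧ Nat.gcd v1 v2 ≤ g0 ∧ Near A δ1 δ2 v1 w w1 ∧ Near A δ1 δ2 v2 w w2).card : ℝ) ≤
      C * (V : ℝ) ^ ε * g0 ^ 4 * (δ1 * δ2 * A ^ 2) := by
  intro ε hε
  obtain ⟨C, hC, hP⟩ := paths_t ε hε
  refine ⟨9 * C, by positivity, ?_⟩
  intro A V g0 _ hV hg0 hA δ1 δ2 hδ1 hδ2 h1 h2 w1 w2
  have hA0 := A_pos (A := A)
  have hδ1' : 0 ≤ δ1 := by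
    by_contra h
    push Not at h
    have := mul_neg_of_pos_of_neg hA0 h
    linarith
  have hδ2' : 0 ≤ δ2 := by
    by_contra h
    push Not at h
    have := mul_neg_of_pos_of_neg hA0 h
    linarith
  set τ : ZMod A := w2.1 - w1.1 with hτ
  set ξ : ZMod A := w2.2 - w1.2 with hξ
  set P : Finset ((ℕ × ℕ) × (ℕ × ℕ)) :=
    ((range (2 * V) ×ˢ range (2 * V)) ×ˢ (range (2 * V) ×ˢ range (2 * V))).filter
      (fun p => V ≤ p.1.1 ∧ p.1.1 < 2 * V ∧ V ≤ p.2.1 ∧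
      p.2.1 < 2 * V ∧ p.1.2 < p.1.1 ∧ p.2.2 < p.2.1 ∧ Nat.Coprime p.1.2 p.1.1 ∧
      Nat.Coprime p.2.2 p.2.1 ∧ Nat.gcd p.1.1 p.2.1 ≤ g0 ∧
      nrm A (τ - ((p.2.2 * (A / p.2.1) : ℕ) : ZMod A) + ((p.1.2 * (A / p.1.1) : ℕ) : ZMod A)) ≤
        2 * δ1) with hPdef
  have hPcard : (P.card : ℝ) ≤ C * (V : ℝ) ^ ε * g0 ^ 3 := by
    apply hP A V g0 hV hg0 hA τ δ1 hδ1' h1 P
    intro p hp
    rw [hPdef, mem_filter] at hp
    exact hp.2
  set X : (ℕ × ℕ) × (ℕ × ℕ) → Finset (ℕ × ℕ) := fun p =>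
    (range (2 * V) ×ˢ range (2 * V)).filter (fun q => q.1 < p.1.1 ∧ q.2 < p.2.1 ∧
      nrm A (ξ - ((q.2 * (A / p.2.1) : ℕ) : ZMod A) + ((q.1 * (A / p.1.1) : ℕ) : ZMod A)) ≤
        2 * δ2) with hXdef
  have hXcard : ∀ p ∈ P, (X p).card ≤ g0 := by
    intro p hp
    rw [hPdef, mem_filter] at hp
    obtain ⟨_, ha, hb, hc, hd, -, -, -, -, he, -⟩ := hp
    refine le_trans ?_ he
    apply paths_x A V p.1.1 p.2.1 ha hb hc hd hV hA ξ δ2 hδ2' h2 (X p)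
    intro q hq
    rw [hXdef, mem_filter] at hq
    exact hq.2
  set Y : ((ℕ × ℕ) × (ℕ × ℕ)) → (ℕ × ℕ) → Finset (ZMod A × ZMod A) := fun p q =>
    (univ.filter fun x : ZMod A => nrm A (x - (w1.1 - ((p.1.2 * (A / p.1.1) : ℕ) : ZMod A))) ≤ δ1)
      ×ˢ (univ.filter fun x : ZMod A =>
        nrm A (x - (w1.2 - ((q.1 * (A / p.1.1) : ℕ) : ZMod A))) ≤ δ2) with hYdef
  have hYcard : ∀ p q, ((Y p q).card : ℝ) ≤ 9 * (δ1 * δ2 * A ^ 2) := by
    intro p q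
    rw [hYdef]
    simp only
    rw [card_product]
    push_cast
    have e1 := card_nrm_le3 (w1.1 - ((p.1.2 * (A / p.1.1) : ℕ) : ZMod A)) δ1 hδ1
    have e2 := card_nrm_le3 (w1.2 - ((q.1 * (A / p.1.1) : ℕ) : ZMod A)) δ2 hδ2
    push_cast at e1 e2
    calc _ ≤ (3 * (A * δ1)) * (3 * (A * δ2)) := by
          apply mul_le_mul e1 e2 (by positivity) (by positivity)
      _ = 9 * (δ1 * δ2 * A ^ 2) := by ring
  have hsub : (univ.filter fun w : ZMod A × ZMod A => ∃ v1 v2 : ℕ, V ≤ v1 ∧ v1 < 2 * V ∧ V ≤ v2 ∧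
      v2 < 2 * V ∧ Nat.gcd v1 v2 ≤ g0 ∧ Near A δ1 δ2 v1 w w1 ∧ Near A δ1 δ2 v2 w w2) ⊆
      P.biUnion fun p => (X p).biUnion fun q => Y p q := by
    intro w hw
    rw [mem_filter] at hw
    obtain ⟨-, v1, v2, ha, hb, hc, hd, he, ⟨a1, b1, f1, f2, f3, f4, f5⟩, ⟨a2, b2, g1, g2, g3, g4,
      g5⟩⟩ := hw
    simp only [mem_biUnion]
    refine ⟨((v1, a1), (v2, a2)), ?_, (b1, b2), ?_, ?_⟩
    · rw [hPdef, mem_filter]
      refine ⟨?_, ha, hb, hc, hd, f1, g1, f3, g3, he, ?_⟩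
      · simp only [mem_product, mem_range]
        omega
      · have : τ - ((a2 * (A / v2) : ℕ) : ZMod A) + ((a1 * (A / v1) : ℕ) : ZMod A) =
            (w2.1 - w.1 - ((a2 * (A / v2) : ℕ) : ZMod A)) -
            (w1.1 - w.1 - ((a1 * (A / v1) : ℕ) : ZMod A)) := by rw [hτ]; ring
        simp only
        rw [this]
        refine (nrm_sub_le _ _).trans ?_
        linarith
    · rw [hXdef, mem_filter]
      refine ⟨?_, f2, g2, ?_⟩
      · simp only [mem_product, mem_range]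
        omega
      · have : ξ - ((b2 * (A / v2) : ℕ) : ZMod A) + ((b1 * (A / v1) : ℕ) : ZMod A) =
            (w2.2 - w.2 - ((b2 * (A / v2) : ℕ) : ZMod A)) -
            (w1.2 - w.2 - ((b1 * (A / v1) : ℕ) : ZMod A)) := by rw [hξ]; ring
        simp only
        rw [this]
        refine (nrm_sub_le _ _).trans ?_
        linarith
    · rw [hYdef]
      simp only [mem_product, mem_filter, mem_univ, true_and]
      constructor
      · have : w.1 - (w1.1 - ((a1 * (A / v1) : ℕ) : ZMod A)) =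
            -(w1.1 - w.1 - ((a1 * (A / v1) : ℕ) : ZMod A)) := by ring
        rw [this, nrm_neg]
        exact f4
      · have : w.2 - (w1.2 - ((b1 * (A / v1) : ℕ) : ZMod A)) =
            -(w1.2 - w.2 - ((b1 * (A / v1) : ℕ) : ZMod A)) := by ring
        rw [this, nrm_neg]
        exact f5
  have hcard := card_le_card hsub
  have h3 : ((P.biUnion fun p => (X p).biUnion fun q => Y p q).card : ℝ) ≤
      ∑ p ∈ P, ∑ q ∈ X p, ((Y p q).card : ℝ) := by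
    have e1 : (P.biUnion fun p => (X p).biUnion fun q => Y p q).card ≤
        ∑ p ∈ P, ∑ q ∈ X p, (Y p q).card :=
      card_biUnion_le.trans (sum_le_sum fun p _ => card_biUnion_le)
    exact_mod_cast e1
  have hK : 0 ≤ 9 * (δ1 * δ2 * (A : ℝ) ^ 2) := by positivity
  calc _ ≤ ((P.biUnion fun p => (X p).biUnion fun q => Y p q).card : ℝ) := by exact_mod_cast hcard
    _ ≤ ∑ p ∈ P, ∑ q ∈ X p, ((Y p q).card : ℝ) := h3
    _ ≤ ∑ p ∈ P, (g0 : ℝ) * (9 * (δ1 * δ2 * A ^ 2)) := by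
        apply sum_le_sum
        intro p hp
        calc _ ≤ ∑ q ∈ X p, 9 * (δ1 * δ2 * (A : ℝ) ^ 2) := sum_le_sum fun q _ => hYcard p q
          _ = ((X p).card : ℝ) * (9 * (δ1 * δ2 * A ^ 2)) := by rw [sum_const, nsmul_eq_mul]
          _ ≤ _ := by
            apply mul_le_mul_of_nonneg_right _ hK
            exact_mod_cast hXcard p hp
    _ = (P.card : ℝ) * ((g0 : ℝ) * (9 * (δ1 * δ2 * A ^ 2))) := by rw [sum_const, nsmul_eq_mul]
    _ ≤ (C * (V : ℝ) ^ ε * g0 ^ 3) * ((g0 : ℝ) * (9 * (δ1 * δ2 * A ^ 2))) := by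
        apply mul_le_mul_of_nonneg_right hPcard
        positivity
    _ = _ := by ring

open Classical in
theorem path_bound : ∀ ε : ℝ, 0 < ε → ∃ C : ℝ, 0 < C ∧ ∀ (A V g0 : ℕ) [NeZero A], 1 ≤ V →
    1 ≤ g0 → Good (2 * V) A → ∀ (δ1 δ2 M0 : ℝ), 1 ≤ A * δ1 → 1 ≤ A * δ2 →
    64 * (V : ℝ) ^ 4 * δ1 < 1 → 64 * (V : ℝ) ^ 2 * δ2 < 1 → 0 ≤ M0 →
    ∀ W : Finset (ZMod A × ZMod A),
    (∀ w ∈ W, ∀ v : ℕ, V ≤ v → v < 2 * V →
      ((W.filter fun w' => Near A δ1 δ2 v w w').card : ℝ) ≤ M0 * sg v) →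
    (((W ×ˢ W).filter fun p => ∃ v : ℕ, V ≤ v ∧ v < 2 * V ∧ Near A δ1 δ2 v p.1 p.2).card : ℝ) ^ 2 ≤
      C * (W.card : ℝ) ^ 2 * (W.card * (V : ℝ) ^ ε * g0 ^ 4 * (δ1 * δ2 * A ^ 2) +
        M0 ^ 2 * (V : ℝ) ^ (2 + ε) / Real.sqrt g0) := by
  intro ε hε
  obtain ⟨C1, hC1, hbig⟩ := big_gcd ε hε
  obtain ⟨C2, hC2, hmid⟩ := mid_count ε hε
  refine ⟨max C1 C2, by positivity, ?_⟩
  intro A V g0 _ hV hg0 hA δ1 δ2 M0 hδ1 hδ2 h1 h2 hM0 W hW
  have hA0 := A_pos (A := A)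
  have hV0 : (0 : ℝ) < V := by exact_mod_cast hV
  have hg0' : (0 : ℝ) < Real.sqrt g0 := Real.sqrt_pos.mpr (by exact_mod_cast hg0)
  set nb : ZMod A × ZMod A → Finset (ZMod A × ZMod A) := fun w =>
    W.filter fun w' => ∃ v : ℕ, V ≤ v ∧ v < 2 * V ∧ Near A δ1 δ2 v w w' with hnb
  have hG : (((W ×ˢ W).filter fun p => ∃ v : ℕ, V ≤ v ∧ v < 2 * V ∧
      Near A δ1 δ2 v p.1 p.2).card : ℝ) = ∑ w ∈ W, ((nb w).card : ℝ) := by
    rw [card_filter, sum_product]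
    push_cast
    apply sum_congr rfl
    intro w _
    rw [hnb]
    simp only
    rw [card_filter]
    push_cast
    rfl
  -- the set of triples
  set T := (W ×ˢ (W ×ˢ W)).filter (fun t => t.2.1 ∈ nb t.1 ∧ t.2.2 ∈ nb t.1) with hT
  have hTc : ∑ w ∈ W, ((nb w).card : ℝ) ^ 2 = T.card := by
    rw [hT, card_filter, sum_product]
    push_cast
    apply sum_congr rfl
    intro w _
    have hsubs : nb w ⊆ W := filter_subset _ _
    have : (∑ q ∈ W ×ˢ W, if q.1 ∈ nb w ∧ q.2 ∈ nb w then (1 : ℝ) else 0) =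
        (((W ×ˢ W).filter fun q => q.1 ∈ nb w ∧ q.2 ∈ nb w).card : ℝ) := by
      rw [card_filter]; push_cast; rfl
    rw [this]
    have h3 : (W ×ˢ W).filter (fun q => q.1 ∈ nb w ∧ q.2 ∈ nb w) = nb w ×ˢ nb w := by
      ext q
      simp only [mem_filter, mem_product]
      constructor
      · rintro ⟨-, h⟩; exact h
      · rintro ⟨h, h'⟩; exact ⟨⟨hsubs h, hsubs h'⟩, h, h'⟩
    rw [h3, card_product]
    push_cast
    ring
  have hcs : (∑ w ∈ W, ((nb w).card : ℝ)) ^ 2 ≤ W.card * T.card := by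
    rw [← hTc]
    exact sq_sum_le_card_mul_sum_sq
  -- split the triples
  set T1 := (W ×ˢ (W ×ˢ W)).filter (fun t => ∃ v1 v2 : ℕ, V ≤ v1 ∧ v1 < 2 * V ∧ V ≤ v2 ∧
      v2 < 2 * V ∧ Nat.gcd v1 v2 ≤ g0 ∧ Near A δ1 δ2 v1 t.1 t.2.1 ∧ Near A δ1 δ2 v2 t.1 t.2.2)
    with hT1
  set T2 := (W ×ˢ (W ×ˢ W)).filter (fun t => ∃ v1 v2 : ℕ, V ≤ v1 ∧ v1 < 2 * V ∧ V ≤ v2 ∧
      v2 < 2 * V ∧ g0 < Nat.gcd v1 v2 ∧ Near A δ1 δ2 v1 t.1 t.2.1 ∧ Near A δ1 δ2 v2 t.1 t.2.2)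
    with hT2
  have hsubT : T ⊆ T1 ∪ T2 := by
    intro t ht
    rw [hT, mem_filter] at ht
    obtain ⟨hm, h3, h4⟩ := ht
    rw [hnb] at h3 h4
    simp only [mem_filter] at h3 h4
    obtain ⟨_, v1, a1, a2, a3⟩ := h3
    obtain ⟨_, v2, b1, b2, b3⟩ := h4
    rw [mem_union]
    by_cases hgc : Nat.gcd v1 v2 ≤ g0
    · left
      rw [hT1, mem_filter]
      exact ⟨hm, v1, v2, a1, a2, b1, b2, hgc, a3, b3⟩
    · right
      rw [hT2, mem_filter]
      exact ⟨hm, v1, v2, a1, a2, b1, b2, not_le.mp hgc, a3, b3⟩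
  have hTle : (T.card : ℝ) ≤ T1.card + T2.card := by
    exact_mod_cast (card_le_card hsubT).trans (card_union_le _ _)
  have hT1c : (T1.card : ℝ) ≤ (W.card : ℝ) ^ 2 * (C2 * (V : ℝ) ^ ε * g0 ^ 4 * (δ1 * δ2 * A ^ 2)) := by
    have h3 : (T1.card : ℝ) ≤ ∑ q ∈ W ×ˢ W, ((univ.filter fun w : ZMod A × ZMod A =>
        ∃ v1 v2 : ℕ, V ≤ v1 ∧ v1 < 2 * V ∧ V ≤ v2 ∧
      v2 < 2 * V ∧ Nat.gcd v1 v2 ≤ g0 ∧ Near A δ1 δ2 v1 w q.1 ∧
        Near A δ1 δ2 v2 w q.2).card : ℝ) := by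
      rw [hT1, card_filter, sum_product, sum_comm]
      push_cast
      apply sum_le_sum
      intro q _
      rw [card_filter]
      push_cast
      exact sum_le_sum_of_subset_of_nonneg (subset_univ W) (fun _ _ _ => by positivity)
    refine h3.trans ?_
    refine (sum_le_sum fun q _ => hmid A V g0 hV hg0 hA δ1 δ2 hδ1 hδ2 h1 h2 q.1 q.2).trans ?_
    rw [sum_const, nsmul_eq_mul, card_product]
    push_cast
    apply le_of_eq
    ring
  have hT2c : (T2.card : ℝ) ≤ W.card * (M0 ^ 2 * (C1 * (V : ℝ) ^ (2 + ε) / Real.sqrt g0)) := by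
    set J := ((Ico V (2 * V)) ×ˢ (Ico V (2 * V))).filter (fun p => g0 < Nat.gcd p.1 p.2) with hJ
    have hsub2 : T2 ⊆ W.biUnion fun w => J.biUnion fun p =>
        ({w} ×ˢ ((W.filter fun w' => Near A δ1 δ2 p.1 w w') ×ˢ
          (W.filter fun w' => Near A δ1 δ2 p.2 w w'))) := by
      intro t ht
      rw [hT2, mem_filter] at ht
      obtain ⟨hm, v1, v2, a1, a2, b1, b2, hgc, a3, b3⟩ := ht
      rw [mem_product, mem_product] at hm
      simp only [mem_biUnion]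
      refine ⟨t.1, hm.1, (v1, v2), ?_, ?_⟩
      · rw [hJ, mem_filter, mem_product, mem_Ico, mem_Ico]
        exact ⟨⟨⟨a1, a2⟩, ⟨b1, b2⟩⟩, hgc⟩
      · simp only [mem_product, mem_singleton, mem_filter, true_and]
        exact ⟨⟨hm.2.1, a3⟩, hm.2.2, b3⟩
    have h3 : (T2.card : ℝ) ≤ ∑ w ∈ W, ∑ p ∈ J, ((W.filter fun w' => Near A δ1 δ2 p.1 w w').card *
          (W.filter fun w' => Near A δ1 δ2 p.2 w w').card : ℝ) := by
      have e1 : T2.card ≤ ∑ w ∈ W, ∑ p ∈ J, ((W.filter fun w' => Near A δ1 δ2 p.1 w w').card *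
          (W.filter fun w' => Near A δ1 δ2 p.2 w w').card) := by
        refine (card_le_card hsub2).trans (card_biUnion_le.trans (sum_le_sum fun w _ =>
          card_biUnion_le.trans (sum_le_sum fun p _ => ?_)))
        rw [card_product, card_product, card_singleton, one_mul]
      exact_mod_cast e1
    refine h3.trans ?_
    have h4 : ∀ w ∈ W, (∑ p ∈ J, ((W.filter fun w' => Near A δ1 δ2 p.1 w w').card *
          (W.filter fun w' => Near A δ1 δ2 p.2 w w').card : ℝ)) ≤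
          M0 ^ 2 * (C1 * (V : ℝ) ^ (2 + ε) / Real.sqrt g0) := by
      intro w hw
      calc _ ≤ ∑ p ∈ J, M0 ^ 2 * ((sg p.1 : ℝ) * sg p.2) := by
            apply sum_le_sum
            intro p hp
            rw [hJ, mem_filter, mem_product, mem_Ico, mem_Ico] at hp
            have e1 := hW w hw p.1 hp.1.1.1 hp.1.1.2
            have e2 := hW w hw p.2 hp.1.2.1 hp.1.2.2
            calc _ ≤ (M0 * sg p.1) * (M0 * sg p.2) :=
                  mul_le_mul e1 e2 (by positivity) (by positivity)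
              _ = _ := by ring
        _ = M0 ^ 2 * ∑ p ∈ J, ((sg p.1 : ℝ) * sg p.2) := by rw [mul_sum]
        _ ≤ _ := mul_le_mul_of_nonneg_left (hbig V g0 hV hg0) (by positivity)
    refine (sum_le_sum h4).trans ?_
    rw [sum_const, nsmul_eq_mul]
  rw [hG]
  refine hcs.trans ?_
  have hWn : (0 : ℝ) ≤ W.card := Nat.cast_nonneg _
  set X1 : ℝ := W.card * (V : ℝ) ^ ε * g0 ^ 4 * (δ1 * δ2 * A ^ 2) with hX1
  set X2 : ℝ := M0 ^ 2 * (V : ℝ) ^ (2 + ε) / Real.sqrt g0 with hX2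
  have hδ1' : 0 ≤ δ1 := by
    by_contra h
    push Not at h
    have := mul_neg_of_pos_of_neg hA0 h
    linarith
  have hδ2' : 0 ≤ δ2 := by
    by_contra h
    push Not at h
    have := mul_neg_of_pos_of_neg hA0 h
    linarith
  have hX1n : 0 ≤ X1 := by rw [hX1]; positivity
  have hX2n : 0 ≤ X2 := by rw [hX2]; positivity
  calc (W.card : ℝ) * T.card ≤ W.card * (T1.card + T2.card) :=
        mul_le_mul_of_nonneg_left hTle hWn
    _ ≤ W.card * ((W.card : ℝ) ^ 2 * (C2 * (V : ℝ) ^ ε * g0 ^ 4 * (δ1 * δ2 * A ^ 2)) +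
        W.card * (M0 ^ 2 * (C1 * (V : ℝ) ^ (2 + ε) / Real.sqrt g0))) :=
        mul_le_mul_of_nonneg_left (add_le_add hT1c hT2c) hWn
    _ = (W.card : ℝ) ^ 2 * (C2 * X1 + C1 * X2) := by rw [hX1, hX2]; ring
    _ ≤ (W.card : ℝ) ^ 2 * (max C1 C2 * X1 + max C1 C2 * X2) := by
        apply mul_le_mul_of_nonneg_left _ (by positivity)
        exact add_le_add (mul_le_mul_of_nonneg_right (le_max_right _ _) hX1n)
          (mul_le_mul_of_nonneg_right (le_max_left _ _) hX2n)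
    _ = _ := by ring

end Stz
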