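import Pool.Agent.Helper6.Stz.TopSums
import Pool.Agent.Helper92.Stz.Kernel
import Pool.Agent.Helper3.Stz.TTstar
import Pool.Agent.Helper81.Stz.Window

/-!
# MP_65a63f_an, module C8: top levels for one piece (helper6)
-/

set_option autoImplicit false

namespace Stz.H6

open Finset

open Classical in
/-- term (d), one dyadic scale -/
theorem scale_d (C Cp Cw Be CJ C1 : ℝ) (hC : 0 < C) (hCp : 0 < Cp) (hCw : 0 < Cw) (hBe : 0 < Be)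
    (hCJ : 0 < CJ) (hC1 : 1 ≤ C1)
    (h1 : 64 * C ^ 2 * Cp * Be * (128 * CJ ^ 2) ≤ C1)
    (h2 : C ^ 2 * Cp * Cw ^ 2 * Be * (128 * CJ ^ 2) ≤ C1)
    (hpath : ∀ (A V g0 : ℕ) [NeZero A], 1 ≤ V →
    1 ≤ g0 → Good (2 * V) A → ∀ (δ1 δ2 M0 : ℝ), 1 ≤ A * δ1 → 1 ≤ A * δ2 →
    64 * (V : ℝ) ^ 4 * δ1 < 1 → 64 * (V : ℝ) ^ 2 * δ2 < 1 → 0 ≤ M0 →
    ∀ W : Finset (ZMod A × ZMod A),
    (∀ w ∈ W, ∀ v : ℕ, V ≤ v → v < 2 * V →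
      ((W.filter fun w' => Near A δ1 δ2 v w w').card : ℝ) ≤ M0 * sg v) →
    (((W ×ˢ W).filter fun p => ∃ v : ℕ, V ≤ v ∧ v < 2 * V ∧ Near A δ1 δ2 v p.1 p.2).card : ℝ) ^ 2 ≤
      Cp * (W.card : ℝ) ^ 2 * (W.card * (V : ℝ) ^ (1 / 600 : ℝ) * g0 ^ 4 * (δ1 * δ2 * A ^ 2) +
        M0 ^ 2 * (V : ℝ) ^ (2 + 1 / 600 : ℝ) / Real.sqrt g0))
    (A N N0 V g0 : ℕ) [NeZero A] (W : Finset (ZMod A × ZMod A)) (t n L2 V1 s0 y0 J : ℝ)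
    (ht : 1 ≤ t) (hN : 0 < (N : ℝ)) (hN0 : 0 < (N0 : ℝ)) (hN0N : (N0 : ℝ) ≤ N) (hn0 : 0 < n)
    (hn : n = (W.card : ℝ)) (hL2 : L2 = (N : ℝ) ^ 2 / t ^ 600) (hs0 : s0 = t ^ 48)
    (hy0 : y0 = t ^ 72) (hV : 1 ≤ V) (hg : 1 ≤ g0) (hgood : Good (2 * V) A)
    (hδ1 : 1 ≤ A * (s0 / (N : ℝ) ^ 2)) (hδ2 : 1 ≤ A * (y0 / (N : ℝ)))
    (hVV1 : (V : ℝ) ≤ V1) (hx : V1 ^ (1 / 600 : ℝ) ≤ Be * t)
    (hc1 : 64 * V1 ^ 4 * s0 < (N : ℝ) ^ 2) (hc2 : 64 * V1 ^ 2 * y0 < N)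
    (hM0 : ∀ w ∈ W, ∀ v : ℕ, V ≤ v → v < 2 * V →
      ((W.filter fun w' => Near A (s0 / N ^ 2) (y0 / N) v w w').card : ℝ) ≤
        Cw * A ^ 2 / (N0 * L2) * sg v)
    (hV2 : t ^ 228 ≤ 2 * V) (hg2 : (g0 : ℝ) ≤ 2 * t ^ 60) (hsg : t ^ 30 ≤ Real.sqrt g0)
    (hJ : 1 ≤ J) (hJ2 : J ≤ CJ * t) (hP : C1 * t ^ 1188 * A ^ 2 / N ^ 3 ≤ n) :
    C * (N0 * N) / V * (((W ×ˢ W).filter fun q => ∃ v : ℕ, V ≤ v ∧ v < 2 * V ∧
        Near A (s0 / N ^ 2) (y0 / N) v q.1 q.2).card : ℝ) ≤ L2 * n ^ 2 / (8 * J) := by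
  have ht0 : 0 < t := by linarith
  have hA0 := A_pos (A := A)
  have hs00 : 0 < s0 := by rw [hs0]; positivity
  have hy00 : 0 < y0 := by rw [hy0]; positivity
  have hVR : (1 : ℝ) ≤ (V : ℝ) := by exact_mod_cast hV
  have hc1' : 64 * (V : ℝ) ^ 4 * (s0 / N ^ 2) < 1 := by
    rw [← mul_div_assoc, div_lt_one (by positivity)]
    refine lt_of_le_of_lt ?_ hc1
    gcongr
  have hc2' : 64 * (V : ℝ) ^ 2 * (y0 / N) < 1 := by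
    rw [← mul_div_assoc, div_lt_one (by positivity)]
    refine lt_of_le_of_lt ?_ hc2
    gcongr
  have hL20 : 0 < L2 := by rw [hL2]; positivity
  have hpb := hpath A V g0 hV hg hgood (s0 / N ^ 2) (y0 / N)
    (Cw * A ^ 2 / (N0 * L2)) hδ1 hδ2 hc1' hc2' (by positivity) W hM0
  have hx' : (V : ℝ) ^ (1 / 600 : ℝ) ≤ Be * t :=
    (Real.rpow_le_rpow (by positivity) hVV1 (by norm_num)).trans hx
  have hrp : (V : ℝ) ^ (2 + 1 / 600 : ℝ) = (V : ℝ) ^ 2 * (V : ℝ) ^ (1 / 600 : ℝ) := by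
    rw [Real.rpow_add (by linarith)]
    congr 1
    exact_mod_cast Real.rpow_natCast (V : ℝ) 2
  rw [hrp, ← hn] at hpb
  obtain ⟨G, hG⟩ : ∃ G : ℝ, G = (((W ×ˢ W).filter fun q => ∃ v : ℕ, V ≤ v ∧ v < 2 * V ∧
        Near A (s0 / N ^ 2) (y0 / N) v q.1 q.2).card : ℝ) := ⟨_, rfl⟩
  have hG0 : 0 ≤ G := by rw [hG]; positivity
  rw [← hG] at hpb ⊢
  rw [hs0, hy0, hL2] at hpb
  rw [hL2]
  exact num_d C Cp Cw Be CJ C1 hC hCp hCw hBe hCJ hC1 h1 h2 t N N0 A n (V : ℝ)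
    ((V : ℝ) ^ (1 / 600 : ℝ)) g0 (Real.sqrt g0) J G ht hN hN0 hN0N hA0 hn0 hV2 (by positivity) hx'
    (by positivity) hg2 hsg hJ hJ2 hP hG0 hpb

open Classical in
/-- summation of the pointwise bounds -/
theorem assemble {α : Type*} (W : Finset α) (X : α → α → ℝ) (L2 n : ℝ) (hn : n = (W.card : ℝ))
    (hn0 : 0 < n) (hL2 : 0 < L2) (Ja : Finset (ℕ × ℕ)) (Jb Jc Jd : Finset ℕ)
    (ca : ℕ × ℕ → ℝ) (cb cc cd : ℕ → ℝ) (Pa : ℕ × ℕ → α → α → Prop) (Pb Pc Pd : ℕ → α → α → Prop)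
    (J : ℝ) (hJ : 0 < J) (hJd : (Jd.card : ℝ) ≤ J)
    (hX : L2 * n ^ 2 ≤ ∑ w ∈ W, ∑ w' ∈ W, X w w')
    (hpt : ∀ w ∈ W, ∀ w' ∈ W, X w w' ≤ L2 / 8 +
      ∑ i ∈ Ja, ca i * (if Pa i w w' then (1 : ℝ) else 0) +
      ∑ i ∈ Jb, cb i * (if Pb i w w' then (1 : ℝ) else 0) +
      ∑ i ∈ Jc, cc i * (if Pc i w w' then (1 : ℝ) else 0) +
      ∑ i ∈ Jd, cd i * (if Pd i w w' then (1 : ℝ) else 0))
    (hMa : ∀ w ∈ W, ∑ i ∈ Ja, ca i * ((W.filter (Pa i w)).card : ℝ) ≤ L2 * n / 8)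
    (hMb : ∀ w ∈ W, ∑ i ∈ Jb, cb i * ((W.filter (Pb i w)).card : ℝ) ≤ L2 * n / 8)
    (hMc : ∀ w ∈ W, ∑ i ∈ Jc, cc i * ((W.filter (Pc i w)).card : ℝ) ≤ L2 * n / 8)
    (hMd : ∀ i ∈ Jd, cd i * (((W ×ˢ W).filter fun q => Pd i q.1 q.2).card : ℝ) ≤
      L2 * n ^ 2 / (8 * J)) : False := by
  have hfin := hX.trans (sum_le_sum fun w hw => sum_le_sum fun w' hw' => hpt w hw w' hw')
  simp only [sum_add_distrib] at hfin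
  have hTa := sumT Ja ca Pa W _ hMa
  have hTb := sumT Jb cb Pb W _ hMb
  have hTc := sumT Jc cc Pc W _ hMc
  have hTd : ∑ w ∈ W, ∑ w' ∈ W, ∑ j ∈ Jd, cd j * (if Pd j w w' then (1 : ℝ) else 0) ≤
      L2 * n ^ 2 / 8 := by
    rw [← sum_product', sum_comm]
    calc _ ≤ ∑ j ∈ Jd, L2 * n ^ 2 / (8 * J) := by
          apply sum_le_sum
          intro j hj
          refine le_trans (le_of_eq ?_) (hMd j hj)
          rw [← mul_sum, card_filter]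
          push_cast
          rfl
      _ = (Jd.card : ℝ) * (L2 * n ^ 2 / (8 * J)) := by rw [sum_const, nsmul_eq_mul]
      _ ≤ J * (L2 * n ^ 2 / (8 * J)) := mul_le_mul_of_nonneg_right hJd (by positivity)
      _ = L2 * n ^ 2 / 8 := by
          field_simp
  have hc0 : ∑ w ∈ W, ∑ w' ∈ W, L2 / 8 = n ^ 2 * (L2 / 8) := by
    simp only [sum_const, nsmul_eq_mul]
    rw [hn]
    ring
  rw [hc0] at hfin
  have hL2n : 0 < L2 * n ^ 2 := by positivity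
  have e1 : (W.card : ℝ) * (L2 * n / 8) = L2 * n ^ 2 / 8 := by rw [← hn]; ring
  rw [e1] at hTa hTb hTc
  linarith

open Classical in
theorem top_core (C Cw Csg Cp : ℝ) (hC : 0 < C) (hCw : 0 < Cw) (hCsg : 0 < Csg) (hCp : 0 < Cp)
    (hker : ∀ (N N0 b A : ℕ) [NeZero A], 1 ≤ N0 → N0 ≤ N →
    Good (8 * N) A → ∀ τ ξ : ZMod A, ∃ v a : ℕ, 1 ≤ v ∧ v ≤ 8 * N ∧ a < v ∧ Nat.Coprime a v ∧
      nrm A (τ - (a * (A / v) : ℕ)) * (8 * v * N) ≤ 1 ∧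
      ‖F A (Icc (b + 1) (b + N0)) N (fun _ _ => 1) τ ξ‖ ≤
        C * ((N0 : ℝ) * N / v * (1 + (N : ℝ) ^ 2 * nrm A (τ - (a * (A / v) : ℕ))) ^ (-(1 / 3) : ℝ) +
          (N : ℝ) ^ (3 / 2 : ℝ) * Real.log (2 * N)) ∧
      ‖F A (Icc (b + 1) (b + N0)) N (fun _ _ => 1) τ ξ‖ ≤
        C * (1 + (N : ℝ) ^ 2 * nrm A (τ - (a * (A / v) : ℕ))) *
          ((N0 : ℝ) * N / v / (1 + N * nrm A (v * ξ) / v) +
            (N : ℝ) ^ (3 / 2 : ℝ) * Real.log (2 * N)))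
    (hwin : ∀ (N N0 b A : ℕ) [NeZero A], 1 ≤ N0 → N0 ≤ N → N0 ≤ b + 1 →
    16 * (b + N) ^ 2 < A → ∀ (a : ℕ → ℕ → ℂ) (z' : ZMod A) (v : ℕ) (S : ℝ), 1 ≤ v → 1 ≤ S →
    v * S ≤ N →
    ∑ z ∈ univ.filter (fun z : ZMod A => nrm A (v * (z - z')) ≤ v * S / N ^ 2),
      ∑ y, ‖F A (Icc (b + 1) (b + N0)) N a z y‖ ^ 2 ≤
        Cw * sg v / N0 * nsq (Icc (b + 1) (b + N0)) N a * A ^ 2)
    (hsg : ∀ V : ℕ, (∑ v ∈ Icc 1 V, (sg v : ℝ) / v) ≤ Csg * (V : ℝ) ^ (1 / 600 : ℝ))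
    (hpath : ∀ (A V g0 : ℕ) [NeZero A], 1 ≤ V →
    1 ≤ g0 → Good (2 * V) A → ∀ (δ1 δ2 M0 : ℝ), 1 ≤ A * δ1 → 1 ≤ A * δ2 →
    64 * (V : ℝ) ^ 4 * δ1 < 1 → 64 * (V : ℝ) ^ 2 * δ2 < 1 → 0 ≤ M0 →
    ∀ W : Finset (ZMod A × ZMod A),
    (∀ w ∈ W, ∀ v : ℕ, V ≤ v → v < 2 * V →
      ((W.filter fun w' => Near A δ1 δ2 v w w').card : ℝ) ≤ M0 * sg v) →
    (((W ×ˢ W).filter fun p => ∃ v : ℕ, V ≤ v ∧ v < 2 * V ∧ Near A δ1 δ2 v p.1 p.2).card : ℝ) ^ 2 ≤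
      Cp * (W.card : ℝ) ^ 2 * (W.card * (V : ℝ) ^ (1 / 600 : ℝ) * g0 ^ 4 * (δ1 * δ2 * A ^ 2) +
        M0 ^ 2 * (V : ℝ) ^ (2 + 1 / 600 : ℝ) / Real.sqrt g0)) :
    ∃ C1 D : ℝ, 0 < C1 ∧ 1 ≤ D ∧ ∀ (N N0 b A : ℕ) [NeZero A], 1 ≤ N0 → N0 ≤ N → N0 ≤ b + 1 →
      Good ((N + b + 1) ^ 30) A → ∀ a : ℕ → ℕ → ℂ, nsq (Icc (b + 1) (b + N0)) N a ≤ 1 →
      ∀ t lam p : ℝ, 1 ≤ t → 0 < lam → D ≤ p → (N : ℝ) = p ^ 10 → t ^ 600 ≤ p →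
      (N : ℝ) = lam * t ^ 300 →
      ((lev A (Icc (b + 1) (b + N0)) N a lam).card : ℝ) ≤ C1 * t ^ 1188 * A ^ 2 / N ^ 3 := by
  obtain ⟨B, hB⟩ : ∃ B : ℝ, B = 16 * C + 1 := ⟨_, rfl⟩
  obtain ⟨Be, hBe⟩ : ∃ Be : ℝ, Be = B ^ (1 / 600 : ℝ) := ⟨_, rfl⟩
  obtain ⟨CJ, hCJ⟩ : ∃ CJ : ℝ, CJ = 1 + 2 * Real.log B + 1200 := ⟨_, rfl⟩
  have hB1 : 1 ≤ B := by rw [hB]; linarith
  have hB0 : 0 < B := by linarith
  have hBe0 : 0 < Be := by rw [hBe]; positivity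
  have hCJ0 : 0 < CJ := by
    have := Real.log_nonneg hB1
    rw [hCJ]; linarith
  obtain ⟨C1, hC1⟩ : ∃ C1 : ℝ, C1 = 1 + 8 * (5 * C * Cw * Csg * Be) +
    8 * (2 * C * Cw * Csg * Be) + 8 * (9 * C) +
    64 * C ^ 2 * Cp * Be * (128 * CJ ^ 2) + C ^ 2 * Cp * Cw ^ 2 * Be * (128 * CJ ^ 2) := ⟨_, rfl⟩
  have q1 : 0 < 5 * C * Cw * Csg * Be := by positivity
  have q2 : 0 < 2 * C * Cw * Csg * Be := by positivity
  have q3 : 0 < 64 * C ^ 2 * Cp * Be * (128 * CJ ^ 2) := by positivity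
  have q4 : 0 < C ^ 2 * Cp * Cw ^ 2 * Be * (128 * CJ ^ 2) := by positivity
  have hC1pos : 0 < C1 := by rw [hC1]; linarith
  have hC1a : 8 * (5 * C * Cw * Csg * Be) ≤ C1 := by rw [hC1]; linarith
  have hC1b : 8 * (2 * C * Cw * Csg * Be) ≤ C1 := by rw [hC1]; linarith
  have hC1c : 8 * (9 * C) ≤ C1 := by rw [hC1]; linarith
  have hC1d : 64 * C ^ 2 * Cp * Be * (128 * CJ ^ 2) ≤ C1 := by rw [hC1]; linarith
  have hC1e : C ^ 2 * Cp * Cw ^ 2 * Be * (128 * CJ ^ 2) ≤ C1 := by rw [hC1]; linarith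
  have hC1f : 1 ≤ C1 := by rw [hC1]; linarith
  have hB4 : 0 < 64 * B ^ 4 := by positivity
  refine ⟨C1, 1 + 640 * C + 64 * B ^ 4, hC1pos, by linarith, ?_⟩
  clear hC1
  intro N N0 b A _ hN0 hN0N hb hA a ha t lam p ht hlam hD hNp htp hNlam
  by_contra hcon
  push Not at hcon
  have hA0 := A_pos (A := A)
  have hN1 : 1 ≤ N := hN0.trans hN0N
  have hNR : (0 : ℝ) < N := by exact_mod_cast hN1
  have hN0R : (0 : ℝ) < N0 := by exact_mod_cast hN0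
  have hN0NR : (N0 : ℝ) ≤ N := by exact_mod_cast hN0N
  have ht0 : 0 < t := by linarith
  have hp1 : 1 < p := by linarith
  have hpC : 640 * C ≤ p := by linarith
  have hpB : 64 * B ^ 4 ≤ p := by linarith
  obtain ⟨I, hI⟩ : ∃ I, I = Icc (b + 1) (b + N0) := ⟨_, rfl⟩
  have hker' := hker N N0 b A hN0 hN0N
  have hwin' := fun hA16 => hwin N N0 b A hN0 hN0N hb hA16 a
  rw [← hI] at ha hcon hker' hwin'
  obtain ⟨W, hW⟩ : ∃ W, W = lev A I N a lam := ⟨_, rfl⟩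
  rw [← hW] at hcon
  obtain ⟨n, hn⟩ : ∃ n : ℝ, n = (W.card : ℝ) := ⟨_, rfl⟩
  rw [← hn] at hcon
  obtain ⟨L2, hL2⟩ : ∃ L2 : ℝ, L2 = (N : ℝ) ^ 2 / t ^ 600 := ⟨_, rfl⟩
  have hL2lam : lam ^ 2 = L2 := by
    rw [hL2, hNlam]
    have : (t : ℝ) ^ 600 = (t ^ 300) ^ 2 := by rw [← pow_mul]
    rw [this]
    field_simp
  have hL20 : 0 < L2 := by rw [← hL2lam]; positivity
  have hn0 : 0 < n := lt_of_le_of_lt (by positivity) hcon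
  have hP : C1 * t ^ 1188 * A ^ 2 / N ^ 3 ≤ n := hcon.le
  -- size of A
  have hM30 := pow30 (N + b + 1) (by omega)
  have hAge : (N + b + 1) ^ 30 ≤ A := A_ge _ A (Nat.one_le_pow _ _ (by omega)) hA
  obtain ⟨hA16, hN2A, h8N⟩ := sizes N b A _ hN1 hM30 hAge
  have hGood8 : Good (8 * N) A := fun k hk1 hk2 => hA k hk1 (hk2.trans h8N)
  have hdvd : ∀ v : ℕ, 1 ≤ v → v ≤ 8 * N → v ∣ A := fun v h1 h2 => hGood8 v h1 h2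
  clear hA hM30 hAge h8N
  -- parameters
  obtain ⟨V1, hV1⟩ : ∃ V1 : ℝ, V1 = B * t ^ 600 := ⟨_, rfl⟩
  obtain ⟨s0, hs0⟩ : ∃ s0 : ℝ, s0 = t ^ 48 := ⟨_, rfl⟩
  obtain ⟨y0, hy0⟩ : ∃ y0 : ℝ, y0 = t ^ 72 := ⟨_, rfl⟩
  obtain ⟨V0, hV0⟩ : ∃ V0 : ℝ, V0 = t ^ 228 := ⟨_, rfl⟩
  obtain ⟨S1, hS1⟩ : ∃ S1 : ℝ, S1 = V1 ^ 3 := ⟨_, rfl⟩
  obtain ⟨E, hE⟩ : ∃ E : ℝ, E = (N : ℝ) ^ (3 / 2 : ℝ) * Real.log (2 * N) := ⟨_, rfl⟩
  rw [← hE] at hker'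
  obtain ⟨f1, f2, f3, f4, f5⟩ := num_facts B t p N V1 s0 y0 S1 hB1 ht hp1.le hpB hp1 htp hNp hV1
    hs0 hy0 hS1
  have hV1one : 1 ≤ V1 := by
    rw [hV1]; exact one_le_mul_of_one_le_of_one_le hB1 (one_le_pow₀ ht)
  have hV1pos : 0 < V1 := by linarith
  have hs01 : 1 ≤ s0 := by rw [hs0]; exact one_le_pow₀ ht
  have hy01 : 1 ≤ y0 := by rw [hy0]; exact one_le_pow₀ ht
  have hV00 : 0 ≤ V0 := by rw [hV0]; positivity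
  have hS1pos : 0 < S1 := by rw [hS1]; positivity
  have hE0 : 0 ≤ E := by
    have h1 : 0 ≤ Real.log (2 * N) := by
      apply Real.log_nonneg
      have : (1 : ℝ) ≤ N := by exact_mod_cast hN1
      linarith
    rw [hE]
    positivity
  have hm1 : C * (N0 * N) / V1 ≤ L2 / 16 := by
    have h1 : C / B ≤ 1 / 16 := by
      rw [div_le_div_iff₀ hB0 (by norm_num), hB]
      linarith
    calc C * (N0 * N) / V1 ≤ C * (N * N) / V1 := by gcongr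
      _ = (N : ℝ) ^ 2 / t ^ 600 * (C / B) := by rw [hV1]; field_simp
      _ ≤ (N : ℝ) ^ 2 / t ^ 600 * (1 / 16) := by gcongr
      _ = L2 / 16 := by rw [hL2]; ring
  have hm2 : C * (N0 * N) * S1 ^ (-(1 / 3) : ℝ) ≤ L2 / 16 := by
    rw [S13 V1 S1 hV1pos hS1, ← div_eq_mul_inv]
    exact hm1
  have hm3 : C * (1 + s0) * E ≤ L2 / 16 := by
    rw [hs0, hE, hL2]
    exact err_bound C p t N hC hp1.le hpC ht hNp htp
  have hexK : ∃ K : ℕ, S1 < 2 ^ K * s0 := by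
    obtain ⟨K, hK⟩ := pow_unbounded_of_one_lt S1 (by norm_num : (1 : ℝ) < 2)
    refine ⟨K, hK.trans_le ?_⟩
    exact le_mul_of_one_le_right (by positivity) hs01
  obtain ⟨K, hK1, hK2⟩ : ∃ K : ℕ, S1 < 2 ^ K * s0 ∧ ∀ k < K, 2 ^ k * s0 ≤ S1 :=
    ⟨Nat.find hexK, Nat.find_spec hexK, fun k hk => not_lt.mp (Nat.find_min hexK hk)⟩
  have hfl1 : 1 ≤ ⌊V1⌋₊ := by rw [Nat.one_le_floor_iff]; exact hV1one
  obtain ⟨J, hJ1, hJ2, hJt, hJ1N⟩ : ∃ J : ℕ, ⌊V1⌋₊ < 2 ^ J ∧ (∀ j < J, ((2 ^ j : ℕ) : ℝ) ≤ V1) ∧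
      (J : ℝ) ≤ CJ * t ∧ 1 ≤ J := by
    refine ⟨Nat.log 2 ⌊V1⌋₊ + 1, Nat.lt_pow_succ_log_self (by norm_num) _, ?_, ?_, by omega⟩
    · intro j hj
      have h1 : 2 ^ j ≤ 2 ^ (Nat.log 2 ⌊V1⌋₊) := Nat.pow_le_pow_right (by norm_num) (by omega)
      have h2 : 2 ^ j ≤ ⌊V1⌋₊ := h1.trans (Nat.pow_log_le_self 2 (by omega))
      have h3 : ((2 ^ j : ℕ) : ℝ) ≤ (⌊V1⌋₊ : ℝ) := by exact_mod_cast h2
      exact h3.trans (Nat.floor_le hV1pos.le)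
    · rw [hCJ]
      exact J_bound B t V1 hB1 ht hV1
  have hJ1R : (1 : ℝ) ≤ J := by exact_mod_cast hJ1N
  -- window counts
  have hcount : ∀ w : ZMod A × ZMod A, ∀ (v : ℕ) (S : ℝ), 1 ≤ v → 1 ≤ S → v * S ≤ N →
      ((W.filter fun w' => nrm A (v * (w'.1 - w.1)) ≤ v * S / N ^ 2).card : ℝ) ≤
        Cw * A ^ 2 / (N0 * L2) * sg v := by
    intro w v S hv hS hvS
    rw [hW]
    exact count_le N N0 A a I lam L2 Cw hlam hL2lam hN0R hCw ha w v S (hwin' hA16 w.1 v S hv hS hvS)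
  -- the sum of sg
  have hsgV : (∑ v ∈ Icc 1 ⌊V1⌋₊, (sg v : ℝ) / v) ≤ Csg * (Be * t) := by
    refine (hsg _).trans ?_
    apply mul_le_mul_of_nonneg_left _ hCsg.le
    rw [hBe, ← rp600 B t V1 hB0 ht0 hV1]
    exact Real.rpow_le_rpow (by positivity) (Nat.floor_le hV1pos.le) (by norm_num)
  -- (a)
  have hMa : ∀ w ∈ W, ∑ i ∈ Icc 1 ⌊V1⌋₊ ×ˢ range K,
      (C * (N0 * N) / i.1 * ((2 : ℝ) ^ i.2 * s0) ^ (-(1 / 3) : ℝ)) *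
      ((W.filter fun w' => nrm A (i.1 * (w'.1 - w.1)) ≤ i.1 * (2 ^ (i.2 + 1) * s0) / N ^ 2).card
        : ℝ) ≤ L2 * n / 8 := by
    intro w _
    refine (sum_a ⌊V1⌋₊ K C Cw N N0 A L2 s0 (Csg * (Be * t)) (5 * (1 / t ^ 16)) hC hCw hNR hN0R
      hA0 hL20 (by linarith) _ ?_ hsgV ?_).trans
      (fin_a C Cw Csg Be C1 hC hCw hCsg hBe0 hC1a t N A n L2 ht hNR hA0 hL2 hP)
    · intro i hi
      rw [mem_product, mem_Icc, mem_range] at hi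
      have hi1 : (i.1 : ℝ) ≤ V1 := by
        have : (i.1 : ℝ) ≤ (⌊V1⌋₊ : ℝ) := by exact_mod_cast hi.1.2
        exact this.trans (Nat.floor_le hV1pos.le)
      have hS : 2 ^ (i.2 + 1) * s0 ≤ 2 * S1 := by
        have := hK2 i.2 hi.2
        rw [pow_succ]
        linarith
      apply hcount w i.1 (2 ^ (i.2 + 1) * s0) hi.1.1
      · exact one_le_mul_of_one_le_of_one_le (one_le_pow₀ (by norm_num)) hs01
      · refine le_trans ?_ f1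
        exact mul_le_mul hi1 hS (by positivity) hV1pos.le
    · rw [← s03 t s0 ht0 hs0]
      exact geo3 K s0 (by linarith)
  -- (b)
  have hMb : ∀ w ∈ W, ∑ v ∈ Icc 1 ⌊V1⌋₊, (C * (1 + s0) * (N0 * N) / v / y0) *
      ((W.filter fun w' => nrm A (v * (w'.1 - w.1)) ≤ v * s0 / N ^ 2).card : ℝ) ≤
      L2 * n / 8 := by
    intro w _
    refine (sum_b ⌊V1⌋₊ C Cw N N0 A L2 s0 y0 (Csg * (Be * t)) hC hCw hNR hN0R
      hA0 hL20 (by linarith) (by linarith) _ ?_ hsgV).trans ?_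
    · intro v hv
      rw [mem_Icc] at hv
      have hi1 : (v : ℝ) ≤ V1 := by
        have : (v : ℝ) ≤ (⌊V1⌋₊ : ℝ) := by exact_mod_cast hv.2
        exact this.trans (Nat.floor_le hV1pos.le)
      apply hcount w v s0 hv.1 hs01
      have h1 : (v : ℝ) * s0 ≤ V1 * s0 := mul_le_mul_of_nonneg_right hi1 (by linarith)
      have h2 : V1 * s0 ≤ 2 * V1 * s0 := by nlinarith
      linarith
    · rw [hs0, hy0]
      exact fin_b C Cw Csg Be C1 hC hCw hCsg hBe0 hC1b t N A n L2 ht hNR hA0 hL2 hP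
  -- sizes for near pairs
  have hN2AR : (N : ℝ) ^ 2 ≤ A := by exact_mod_cast hN2A
  have hN1R : (1 : ℝ) ≤ N := by exact_mod_cast hN1
  have hδ1 : 1 ≤ A * (s0 / (N : ℝ) ^ 2) := by
    rw [← mul_div_assoc, one_le_div (by positivity)]
    nlinarith
  have hδ2 : 1 ≤ A * (y0 / (N : ℝ)) := by
    rw [← mul_div_assoc, one_le_div (by positivity)]
    nlinarith
  -- (c)
  have hMc : ∀ w ∈ W, ∑ v ∈ (Icc 1 ⌊V1⌋₊).filter (fun v : ℕ => (v : ℝ) ≤ V0),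
      (C * (N0 * N) / v) *
      ((W.filter fun w' => Near A (s0 / N ^ 2) (y0 / N) v w w').card : ℝ) ≤ L2 * n / 8 := by
    intro w _
    refine (sum_c ⌊V1⌋₊ C N N0 V0 (9 * (s0 / N ^ 2 * (y0 / N) * A ^ 2)) hC hN0R hN0NR hV00
      (by positivity) _ (fun v => by positivity)
      (fun v => near_cnt A (s0 / N ^ 2) (y0 / N) hδ1 hδ2 v w W)).trans ?_
    rw [hs0, hy0, hV0]
    exact fin_c C C1 hC hC1c t N A n L2 ht hNR hA0 hL2 hP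
  -- (d)
  obtain ⟨g0, hg1, hg2, hg3⟩ : ∃ g0 : ℕ, t ^ 60 ≤ (g0 : ℝ) ∧ (g0 : ℝ) ≤ 2 * t ^ 60 ∧ 1 ≤ g0 := by
    have h1 : t ^ 60 ≤ (⌈t ^ 60⌉₊ : ℝ) := Nat.le_ceil _
    have h2 : (⌈t ^ 60⌉₊ : ℝ) < t ^ 60 + 1 := Nat.ceil_lt_add_one (by positivity)
    have h3 : (1 : ℝ) ≤ t ^ 60 := one_le_pow₀ ht
    refine ⟨⌈t ^ 60⌉₊, h1, by linarith, ?_⟩
    have : (1 : ℝ) ≤ (⌈t ^ 60⌉₊ : ℝ) := h3.trans h1
    exact_mod_cast this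
  have hg4 : t ^ 30 ≤ Real.sqrt g0 := by
    apply Real.le_sqrt_of_sq_le
    rw [← pow_mul]
    exact hg1
  have hMd : ∀ j ∈ (range J).filter (fun j : ℕ => V0 ≤ 2 ^ (j + 1)),
      (C * (N0 * N) / 2 ^ j) * (((W ×ˢ W).filter fun q => ∃ v : ℕ, 2 ^ j ≤ v ∧ v < 2 * 2 ^ j ∧
        Near A (s0 / N ^ 2) (y0 / N) v q.1 q.2).card : ℝ) ≤ L2 * n ^ 2 / (8 * J) := by
    intro j hj
    rw [mem_filter, mem_range] at hj
    have hVj : ((2 ^ j : ℕ) : ℝ) ≤ V1 := hJ2 j hj.1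
    have hVj1 : 1 ≤ 2 ^ j := Nat.one_le_two_pow
    have h2jN : 2 * 2 ^ j ≤ N := by
      have h1 : ((2 * 2 ^ j : ℕ) : ℝ) ≤ N := by
        push_cast
        push_cast at hVj
        linarith
      exact_mod_cast h1
    have hGoodV : Good (2 * 2 ^ j) A := fun k hk1 hk2 => hdvd k hk1 (by omega)
    have hM0 : ∀ w ∈ W, ∀ v : ℕ, 2 ^ j ≤ v → v < 2 * 2 ^ j →
        ((W.filter fun w' => Near A (s0 / N ^ 2) (y0 / N) v w w').card : ℝ) ≤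
          Cw * A ^ 2 / (N0 * L2) * sg v := by
      intro w _ v hv1 hv2
      have hv1' : 1 ≤ v := hVj1.trans hv1
      have hvR : (v : ℝ) ≤ 2 * V1 := by
        have h1 : (v : ℝ) ≤ ((2 * 2 ^ j : ℕ) : ℝ) := by exact_mod_cast hv2.le
        refine h1.trans ?_
        push_cast
        push_cast at hVj
        linarith
      have hvA : v ∣ A := hGoodV v hv1' hv2.le
      have hv0 : (0 : ℝ) < v := by exact_mod_cast hv1'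
      refine le_trans ?_ (hcount w v s0 hv1' hs01 ?_)
      · have hsub : (W.filter fun w' => Near A (s0 / N ^ 2) (y0 / N) v w w') ⊆
            (W.filter fun w' => nrm A (v * (w'.1 - w.1)) ≤ v * s0 / N ^ 2) := by
          intro w' hw'
          rw [mem_filter] at hw' ⊢
          obtain ⟨hw1, a', b', -, -, -, h5, -⟩ := hw'
          refine ⟨hw1, (nrm_v_le A v a' hvA _).trans ?_⟩
          rw [mul_div_assoc]
          exact mul_le_mul_of_nonneg_left h5 hv0.le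
        exact_mod_cast card_le_card hsub
      · exact le_trans (mul_le_mul_of_nonneg_right hvR (by linarith)) f2
    have hVV : t ^ 228 ≤ 2 * ((2 ^ j : ℕ) : ℝ) := by
      have := hj.2
      rw [pow_succ, hV0] at this
      push_cast
      linarith
    have := scale_d C Cp Cw Be CJ C1 hC hCp hCw hBe0 hCJ0 hC1f hC1d hC1e hpath A N N0 (2 ^ j) g0 W
      t n L2 V1 s0 y0 J ht hNR hN0R hN0NR hn0 hn hL2 hs0 hy0 hVj1 hg3 hGoodV hδ1 hδ2 hVj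
      (by rw [hBe, rp600 B t V1 hB0 ht0 hV1]) f3 f4 hM0 hVV hg2 hg4 hJ1R hJt hP
    push_cast at this
    exact this
  -- assembly
  have htt := ttstar A N I a ha W lam hlam.le (fun w hw => by
    rw [hW, lev, mem_filter] at hw; exact hw.2)
  rw [hL2lam, ← hn] at htt
  refine assemble W (fun w w' => ‖F A I N (fun _ _ => 1) (w'.1 - w.1) (w'.2 - w.2)‖) L2 n hn hn0
    hL20 (Icc 1 ⌊V1⌋₊ ×ˢ range K) (Icc 1 ⌊V1⌋₊) ((Icc 1 ⌊V1⌋₊).filter (fun v : ℕ => (v : ℝ) ≤ V0))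
    ((range J).filter (fun j : ℕ => V0 ≤ 2 ^ (j + 1)))
    (fun i => C * (N0 * N) / i.1 * ((2 : ℝ) ^ i.2 * s0) ^ (-(1 / 3) : ℝ))
    (fun v => C * (1 + s0) * (N0 * N) / v / y0) (fun v => C * (N0 * N) / v)
    (fun j => C * (N0 * N) / 2 ^ j)
    (fun i w w' => nrm A (i.1 * (w'.1 - w.1)) ≤ i.1 * (2 ^ (i.2 + 1) * s0) / N ^ 2)
    (fun v w w' => nrm A (v * (w'.1 - w.1)) ≤ v * s0 / N ^ 2)
    (fun v w w' => Near A (s0 / N ^ 2) (y0 / N) v w w')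
    (fun j w w' => ∃ v : ℕ, 2 ^ j ≤ v ∧ v < 2 * 2 ^ j ∧ Near A (s0 / N ^ 2) (y0 / N) v w w')
    J (by linarith) ?_ htt ?_ hMa hMb hMc hMd
  · have : ((range J).filter (fun j : ℕ => V0 ≤ 2 ^ (j + 1))).card ≤ J := by
      refine (card_filter_le _ _).trans ?_
      rw [card_range]
    exact_mod_cast this
  · intro w _ w' _
    have := pointwise A N N0 (w'.1 - w.1) (w'.2 - w.2) C V1 S1 V0 s0 y0 L2 E
      (‖F A I N (fun _ _ => 1) (w'.1 - w.1) (w'.2 - w.2)‖) K J hC hN1 hN0 hE0 hs01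
      (by linarith) hV1pos hS1pos hdvd hm1 hm2 hm3 hK1 hJ1
      (hker' hGood8 (w'.1 - w.1) (w'.2 - w.2))
    simp only [near_zero] at this
    exact this

end Stz.H6
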