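import Mathlib

/-!
# MP_65a63f_an, module C8, numerical inequalities (helper6)
-/

set_option autoImplicit false

namespace Stz.H6

theorem num_d (C Cp Cw Be CJ C1 : ℝ) (hC : 0 < C) (hCp : 0 < Cp) (hCw : 0 < Cw) (hBe : 0 < Be)
    (hCJ : 0 < CJ) (hC1 : 1 ≤ C1)
    (h1 : 64 * C ^ 2 * Cp * Be * (128 * CJ ^ 2) ≤ C1)
    (h2 : C ^ 2 * Cp * Cw ^ 2 * Be * (128 * CJ ^ 2) ≤ C1)
    (t N N0 A n V x g0 sg J G : ℝ) (ht : 1 ≤ t) (hN : 0 < N) (hN0 : 0 < N0) (hN0N : N0 ≤ N)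
    (hA : 0 < A) (hn : 0 < n)
    (hV : t ^ 228 ≤ 2 * V) (hx : 0 ≤ x) (hxB : x ≤ Be * t) (hg : 0 ≤ g0) (hg2 : g0 ≤ 2 * t ^ 60)
    (hsg : t ^ 30 ≤ sg) (hJ : 1 ≤ J) (hJ2 : J ≤ CJ * t)
    (hP : C1 * t ^ 1188 * A ^ 2 / N ^ 3 ≤ n) (hG : 0 ≤ G)
    (hG2 : G ^ 2 ≤ Cp * n ^ 2 * (n * x * g0 ^ 4 * (t ^ 48 / N ^ 2 * (t ^ 72 / N) * A ^ 2) +
      (Cw * A ^ 2 / (N0 * (N ^ 2 / t ^ 600))) ^ 2 * (V ^ 2 * x) / sg)) :
    C * (N0 * N) / V * G ≤ N ^ 2 / t ^ 600 * n ^ 2 / (8 * J) := by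
  have ht0 : 0 < t := by linarith
  have hV0 : 0 < V := by
    have : 0 < t ^ 228 := by positivity
    linarith
  have hsg0 : 0 < sg := by
    have : 0 < t ^ 30 := by positivity
    linarith
  have hJ0 : 0 < J := by linarith
  -- the right side squared
  have hR : ∀ m : ℝ, 0 ≤ m → m ≤ n → N ^ 4 * n ^ 3 * m / (128 * t ^ 1200 * (CJ * t) ^ 2) ≤
      (N ^ 2 / t ^ 600 * n ^ 2 / (8 * J)) ^ 2 / 2 := by
    intro m hm hmn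
    have e : (N ^ 2 / t ^ 600 * n ^ 2 / (8 * J)) ^ 2 / 2 =
        N ^ 4 * n ^ 3 * n / (128 * t ^ 1200 * J ^ 2) := by
      field_simp
      ring
    rw [e]
    gcongr
  have hR2 : ∀ m : ℝ, 0 ≤ m → m ≤ n → N ^ 4 * n ^ 2 * m ^ 2 / (128 * t ^ 1200 * (CJ * t) ^ 2) ≤
      (N ^ 2 / t ^ 600 * n ^ 2 / (8 * J)) ^ 2 / 2 := by
    intro m hm hmn
    have e : (N ^ 2 / t ^ 600 * n ^ 2 / (8 * J)) ^ 2 / 2 =
        N ^ 4 * n ^ 2 * n ^ 2 / (128 * t ^ 1200 * J ^ 2) := by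
      field_simp
      ring
    rw [e]
    gcongr
  set m := C1 * t ^ 1188 * A ^ 2 / N ^ 3 with hm
  have hm0 : 0 ≤ m := by positivity
  have hVi : (V⁻¹) ^ 2 ≤ 4 / t ^ 456 := by
    have h3 : V⁻¹ ≤ 2 / t ^ 228 := by
      rw [inv_le_comm₀ hV0 (by positivity), inv_div]
      linarith
    calc (V⁻¹) ^ 2 ≤ (2 / t ^ 228) ^ 2 := by gcongr
      _ = 4 / t ^ 456 := by rw [div_pow, ← pow_mul]; norm_num
  -- first term
  have T1 : C ^ 2 * (N0 * N) ^ 2 * (V⁻¹) ^ 2 *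
      (Cp * n ^ 2 * (n * x * g0 ^ 4 * (t ^ 48 / N ^ 2 * (t ^ 72 / N) * A ^ 2))) ≤
      (N ^ 2 / t ^ 600 * n ^ 2 / (8 * J)) ^ 2 / 2 := by
    calc C ^ 2 * (N0 * N) ^ 2 * (V⁻¹) ^ 2 *
      (Cp * n ^ 2 * (n * x * g0 ^ 4 * (t ^ 48 / N ^ 2 * (t ^ 72 / N) * A ^ 2)))
        ≤ C ^ 2 * (N * N) ^ 2 * (4 / t ^ 456) *
      (Cp * n ^ 2 * (n * (Be * t) * (2 * t ^ 60) ^ 4 *
        (t ^ 48 / N ^ 2 * (t ^ 72 / N) * A ^ 2))) := by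
          gcongr
      _ = (64 * C ^ 2 * Cp * Be * (128 * CJ ^ 2)) * (N * n ^ 3 * A ^ 2 / (128 * CJ ^ 2)) *
          (1 / t ^ 95) := by
          have e1 : (t : ℝ) ^ 456 = t ^ 361 * t ^ 95 := by rw [← pow_add]
          rw [e1]
          field_simp
          ring
      _ ≤ C1 * (N * n ^ 3 * A ^ 2 / (128 * CJ ^ 2)) * (1 / t ^ 14) := by
          have e3 : 1 / t ^ 95 ≤ 1 / t ^ 14 := by
            apply one_div_le_one_div_of_le (by positivity)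
            exact pow_le_pow_right₀ ht (by norm_num)
          gcongr
      _ = N ^ 4 * n ^ 3 * m / (128 * t ^ 1200 * (CJ * t) ^ 2) := by
          have e1 : (t : ℝ) ^ 1200 * (CJ * t) ^ 2 = CJ ^ 2 * t ^ 1188 * t ^ 14 := by ring
          rw [mul_assoc 128, e1, hm]
          field_simp
      _ ≤ _ := hR m hm0 hP
  have T2 : C ^ 2 * (N0 * N) ^ 2 * (V⁻¹) ^ 2 *
      (Cp * n ^ 2 * ((Cw * A ^ 2 / (N0 * (N ^ 2 / t ^ 600))) ^ 2 * (V ^ 2 * x) / sg)) ≤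
      (N ^ 2 / t ^ 600 * n ^ 2 / (8 * J)) ^ 2 / 2 := by
    calc C ^ 2 * (N0 * N) ^ 2 * (V⁻¹) ^ 2 *
      (Cp * n ^ 2 * ((Cw * A ^ 2 / (N0 * (N ^ 2 / t ^ 600))) ^ 2 * (V ^ 2 * x) / sg))
        = C ^ 2 * Cp * Cw ^ 2 * (n ^ 2 * A ^ 4 / N ^ 2) * t ^ 1200 * (x / sg) := by
          field_simp
      _ ≤ C ^ 2 * Cp * Cw ^ 2 * (n ^ 2 * A ^ 4 / N ^ 2) * t ^ 1200 * (Be * t / t ^ 30) := by
          gcongr
      _ = (C ^ 2 * Cp * Cw ^ 2 * Be * (128 * CJ ^ 2)) * (n ^ 2 * A ^ 4 / N ^ 2 / (128 * CJ ^ 2)) *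
          t ^ 1171 := by
          have e1 : (t : ℝ) ^ 1200 * (Be * t / t ^ 30) = Be * t ^ 1171 := by
            have : (t : ℝ) ^ 1200 * t = t ^ 1171 * t ^ 30 := by ring
            field_simp
          rw [mul_assoc _ (t ^ 1200), e1]
          field_simp
      _ ≤ C1 * (n ^ 2 * A ^ 4 / N ^ 2 / (128 * CJ ^ 2)) * t ^ 1174 := by
          have e3 : t ^ 1171 ≤ t ^ 1174 := pow_le_pow_right₀ ht (by norm_num)
          gcongr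
      _ ≤ C1 ^ 2 * (n ^ 2 * A ^ 4 / N ^ 2 / (128 * CJ ^ 2)) * t ^ 1174 := by
          have e3 : C1 ≤ C1 ^ 2 := by nlinarith
          gcongr
      _ = N ^ 4 * n ^ 2 * m ^ 2 / (128 * t ^ 1200 * (CJ * t) ^ 2) := by
          have e1 : (t : ℝ) ^ 1200 * (CJ * t) ^ 2 = CJ ^ 2 * t ^ 1202 := by ring
          have e2 : m ^ 2 = C1 ^ 2 * (t ^ 1174 * t ^ 1202) * A ^ 4 / N ^ 6 := by
            rw [hm]
            ring
          rw [mul_assoc 128, e1, e2]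
          field_simp
      _ ≤ _ := hR2 m hm0 hP
  have hsq : (C * (N0 * N) / V * G) ^ 2 ≤ (N ^ 2 / t ^ 600 * n ^ 2 / (8 * J)) ^ 2 := by
    calc (C * (N0 * N) / V * G) ^ 2 = C ^ 2 * (N0 * N) ^ 2 * (V⁻¹) ^ 2 * G ^ 2 := by
          rw [div_eq_mul_inv]; ring
      _ ≤ C ^ 2 * (N0 * N) ^ 2 * (V⁻¹) ^ 2 *
          (Cp * n ^ 2 * (n * x * g0 ^ 4 * (t ^ 48 / N ^ 2 * (t ^ 72 / N) * A ^ 2) +
          (Cw * A ^ 2 / (N0 * (N ^ 2 / t ^ 600))) ^ 2 * (V ^ 2 * x) / sg)) := by gcongr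
      _ = _ + _ := by rw [mul_add (Cp * n ^ 2), mul_add]
      _ ≤ _ := add_le_add T1 T2
      _ = _ := by ring
  exact (sq_le_sq₀ (by positivity) (by positivity)).mp hsq

/-- terms (a) and (b) -/
theorem num_ab (D C1 : ℝ) (k : ℕ) (hk : 12 ≤ k) (hD : 8 * D ≤ C1) (hD0 : 0 ≤ D)
    (t N A n : ℝ) (ht : 1 ≤ t) (hN : 0 < N)
    (hA : 0 < A) (hP : C1 * t ^ 1188 * A ^ 2 / N ^ 3 ≤ n) :
    D * N * A ^ 2 / (N ^ 2 / t ^ 600) / t ^ k ≤ N ^ 2 / t ^ 600 * n / 8 := by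
  have ht0 : 0 < t := by linarith
  calc D * N * A ^ 2 / (N ^ 2 / t ^ 600) / t ^ k
      = D * (A ^ 2 / N) * (t ^ 600 * (1 / t ^ k)) := by field_simp
    _ ≤ D * (A ^ 2 / N) * (t ^ 600 * (1 / t ^ 12)) := by
        have : 1 / t ^ k ≤ 1 / t ^ 12 :=
          one_div_le_one_div_of_le (by positivity) (pow_le_pow_right₀ ht hk)
        gcongr
    _ = (8 * D) * (A ^ 2 / N) * t ^ 588 / 8 := by
        have e1 : (t : ℝ) ^ 600 = t ^ 588 * t ^ 12 := by rw [← pow_add]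
        rw [e1]
        field_simp
    _ ≤ C1 * (A ^ 2 / N) * t ^ 588 / 8 := by gcongr
    _ = N ^ 2 / t ^ 600 * (C1 * t ^ 1188 * A ^ 2 / N ^ 3) / 8 := by
        have e1 : (t : ℝ) ^ 1188 = t ^ 588 * t ^ 600 := by rw [← pow_add]
        rw [e1]
        field_simp
    _ ≤ _ := by gcongr

theorem num_c (D C1 : ℝ) (hD : 8 * D ≤ C1) (hD0 : 0 ≤ D)
    (t N A n : ℝ) (ht : 1 ≤ t) (hN : 0 < N)
    (hA : 0 < A) (hP : C1 * t ^ 1188 * A ^ 2 / N ^ 3 ≤ n) :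
    D * (A ^ 2 / N) * t ^ 576 ≤ N ^ 2 / t ^ 600 * n / 8 := by
  have ht0 : 0 < t := by linarith
  calc D * (A ^ 2 / N) * t ^ 576 ≤ D * (A ^ 2 / N) * t ^ 588 := by
        have : t ^ 576 ≤ t ^ 588 := pow_le_pow_right₀ ht (by norm_num)
        gcongr
    _ = (8 * D) * (A ^ 2 / N) * t ^ 588 / 8 := by ring
    _ ≤ C1 * (A ^ 2 / N) * t ^ 588 / 8 := by gcongr
    _ = N ^ 2 / t ^ 600 * (C1 * t ^ 1188 * A ^ 2 / N ^ 3) / 8 := by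
        have e1 : (t : ℝ) ^ 1188 = t ^ 588 * t ^ 600 := by rw [← pow_add]
        rw [e1]
        field_simp
    _ ≤ _ := by gcongr

end Stz.H6
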