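import Pool.Agent.Helper6.Stz.TopCore

/-!
# MP_65a63f_an, module C8: top levels for one piece (helper6)
-/

set_option autoImplicit false

namespace Stz

open Finset Stz.H6

/-- top levels for one piece -/
theorem top_piece : ∃ θ : ℝ, 0 < θ ∧ θ < 1 / 2 ∧ ∃ δ : ℝ, 0 < δ ∧ ∃ C : ℝ, 0 < C ∧
    ∀ (N N0 b A : ℕ) [NeZero A], 1 ≤ N0 → N0 ≤ N → N0 ≤ b + 1 → Good ((N + b + 1) ^ 30) A →
    ∀ a : ℕ → ℕ → ℂ, nsq (Icc (b + 1) (b + N0)) N a ≤ 1 → ∀ lam : ℝ, (N : ℝ) ^ (1 - θ) ≤ lam →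
    ((lev A (Icc (b + 1) (b + N0)) N a lam).card : ℝ) ≤
      C * (N : ℝ) ^ (-3 : ℝ) * (N / lam) ^ (4 - δ) * A ^ 2 := by
  obtain ⟨C, hC, hker⟩ := kernel
  obtain ⟨Cw, hCw, hwin⟩ := window
  obtain ⟨Csg, hCsg, hsg⟩ := sgdiv (1 / 600) (by norm_num)
  obtain ⟨Cp, hCp, hpath⟩ := path_bound (1 / 600) (by norm_num)
  obtain ⟨C1, D, hC1, hD, hcore⟩ := top_core C Cw Csg Cp hC hCw hCsg hCp hker hwin hsg hpath
  refine ⟨1 / 20, by norm_num, by norm_num, 1 / 25, by norm_num, C1 + D ^ 30, by positivity, ?_⟩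
  intro N N0 b A _ hN0 hN0N hb hA a ha lam hlam
  have hN1 : 1 ≤ N := hN0.trans hN0N
  have hNR : (0 : ℝ) < N := by exact_mod_cast hN1
  have hN1R : (1 : ℝ) ≤ N := by exact_mod_cast hN1
  have hA0 := A_pos (A := A)
  have hlam0 : 0 < lam := lt_of_lt_of_le (by positivity) hlam
  have hD0 : 0 < D := by linarith
  rcases (lev A (Icc (b + 1) (b + N0)) N a lam).eq_empty_or_nonempty with hemp | ⟨w, hw⟩
  · rw [hemp, card_empty, Nat.cast_zero]
    positivity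
  have hw2 : lam ≤ ‖F A (Icc (b + 1) (b + N0)) N a w.1 w.2‖ := by
    rw [lev, mem_filter] at hw; exact hw.2
  have hlamN : lam ≤ N := by
    have h1 := norm_F_sq_le A N (Icc (b + 1) (b + N0)) a w.1 w.2
    have h2 : ((Icc (b + 1) (b + N0)).card : ℝ) ≤ N := by
      rw [Nat.card_Icc]
      have : b + N0 + 1 - (b + 1) ≤ N := by omega
      exact_mod_cast this
    have h3 : ‖F A (Icc (b + 1) (b + N0)) N a w.1 w.2‖ ^ 2 ≤ (N : ℝ) ^ 2 := by
      refine h1.trans ?_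
      have h4 : 0 ≤ nsq (Icc (b + 1) (b + N0)) N a := by
        unfold nsq; positivity
      calc ((Icc (b + 1) (b + N0)).card : ℝ) * N * nsq (Icc (b + 1) (b + N0)) N a
          ≤ N * N * 1 := by gcongr
        _ = (N : ℝ) ^ 2 := by ring
    have h5 : ‖F A (Icc (b + 1) (b + N0)) N a w.1 w.2‖ ≤ N :=
      (sq_le_sq₀ (norm_nonneg _) hNR.le).mp h3
    exact hw2.trans h5
  obtain ⟨t, ht⟩ : ∃ t : ℝ, t = (N / lam) ^ (1 / 300 : ℝ) := ⟨_, rfl⟩
  obtain ⟨p, hp⟩ : ∃ p : ℝ, p = (N : ℝ) ^ (1 / 10 : ℝ) := ⟨_, rfl⟩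
  have hNl1 : 1 ≤ N / lam := (one_le_div hlam0).mpr hlamN
  have hNl0 : 0 < N / lam := by linarith
  have ht1 : 1 ≤ t := by rw [ht]; exact Real.one_le_rpow hNl1 (by norm_num)
  have ht300 : t ^ 300 = N / lam := by
    rw [ht, ← Real.rpow_natCast, ← Real.rpow_mul hNl0.le]
    norm_num
  have ht1188 : t ^ 1188 = (N / lam) ^ (4 - 1 / 25 : ℝ) := by
    rw [ht, ← Real.rpow_natCast, ← Real.rpow_mul hNl0.le]
    norm_num
  have hp10 : (N : ℝ) = p ^ 10 := by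
    rw [hp, ← Real.rpow_natCast, ← Real.rpow_mul hNR.le]
    norm_num
  have ht600 : t ^ 600 ≤ p := by
    have h1 : t ^ 600 = (N / lam) ^ 2 := by rw [← ht300, ← pow_mul]
    have h2 : N / lam ≤ (N : ℝ) ^ (1 / 20 : ℝ) := by
      rw [div_le_iff₀ hlam0]
      calc (N : ℝ) = (N : ℝ) ^ (1 / 20 : ℝ) * (N : ℝ) ^ (1 - 1 / 20 : ℝ) := by
            rw [← Real.rpow_add hNR]; norm_num
        _ ≤ _ := mul_le_mul_of_nonneg_left hlam (by positivity)
    rw [h1]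
    calc (N / lam) ^ 2 ≤ ((N : ℝ) ^ (1 / 20 : ℝ)) ^ 2 := by gcongr
      _ = p := by
        rw [hp, ← Real.rpow_natCast, ← Real.rpow_mul hNR.le]
        norm_num
  have hNlam : (N : ℝ) = lam * t ^ 300 := by
    rw [ht300]; field_simp
  have hN3 : (N : ℝ) ^ (-3 : ℝ) = 1 / N ^ 3 := by
    rw [Real.rpow_neg hNR.le, one_div]
    congr 1
    exact_mod_cast Real.rpow_natCast (N : ℝ) 3
  rw [← ht1188, hN3]
  have ht0 : 0 < t := by linarith
  by_cases hDp : D ≤ p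
  · have := hcore N N0 b A hN0 hN0N hb hA a ha t lam p ht1 hlam0 hDp hp10 ht600 hNlam
    refine this.trans ?_
    calc C1 * t ^ 1188 * A ^ 2 / N ^ 3 = C1 * (1 / N ^ 3) * t ^ 1188 * A ^ 2 := by ring
      _ ≤ (C1 + D ^ 30) * (1 / N ^ 3) * t ^ 1188 * A ^ 2 := by
          have : C1 ≤ C1 + D ^ 30 := by
            have : 0 < D ^ 30 := by positivity
            linarith
          gcongr
  · push Not at hDp
    have hp0 : 0 < p := by rw [hp]; positivity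
    have h1 : ((lev A (Icc (b + 1) (b + N0)) N a lam).card : ℝ) ≤ (A : ℝ) ^ 2 := by
      have h2 : (lev A (Icc (b + 1) (b + N0)) N a lam).card ≤
          (univ : Finset (ZMod A × ZMod A)).card := card_le_card (subset_univ _)
      rw [card_univ, Fintype.card_prod, ZMod.card] at h2
      have h3 : ((lev A (Icc (b + 1) (b + N0)) N a lam).card : ℝ) ≤ ((A * A : ℕ) : ℝ) := by
        exact_mod_cast h2
      push_cast at h3
      calc _ ≤ (A : ℝ) * A := h3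
        _ = (A : ℝ) ^ 2 := by ring
    refine h1.trans ?_
    have h4 : (N : ℝ) ^ 3 ≤ D ^ 30 := by
      rw [hp10, ← pow_mul]
      exact pow_le_pow_left₀ hp0.le hDp.le 30
    have h5 : 1 ≤ (C1 + D ^ 30) * (1 / N ^ 3) := by
      rw [mul_one_div, one_le_div (by positivity)]
      linarith
    have h6 : (1 : ℝ) ≤ t ^ 1188 := one_le_pow₀ ht1
    have h7 : 1 ≤ (C1 + D ^ 30) * (1 / N ^ 3) * t ^ 1188 :=
      one_le_mul_of_one_le_of_one_le h5 h6
    exact le_mul_of_one_le_left (by positivity) h7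

end Stz
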