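import Pool.Agent.Helper6.Stz.TopTools

/-!
# MP_65a63f_an, module C8, pointwise decomposition of the kernel (helper6)
-/

set_option autoImplicit false

namespace Stz.H6

open Finset

open Classical in
theorem pointwise (A N N0 : ℕ) [NeZero A] (τ ξ : ZMod A) (C V1 S1 V0 s0 y0 L2 E X : ℝ)
    (K J : ℕ) (hC : 0 < C) (hN : 1 ≤ N) (hN0 : 1 ≤ N0) (hE : 0 ≤ E) (hs0 : 1 ≤ s0)
    (hy0 : 0 < y0) (hV1 : 0 < V1) (hS1 : 0 < S1)
    (hA : ∀ v : ℕ, 1 ≤ v → v ≤ 8 * N → v ∣ A)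
    (hm1 : C * (N0 * N) / V1 ≤ L2 / 16)
    (hm2 : C * (N0 * N) * S1 ^ (-(1 / 3) : ℝ) ≤ L2 / 16)
    (hm3 : C * (1 + s0) * E ≤ L2 / 16) (hK : S1 < 2 ^ K * s0) (hJ : ⌊V1⌋₊ < 2 ^ J)
    (hker : ∃ v a : ℕ, 1 ≤ v ∧ v ≤ 8 * N ∧ a < v ∧ Nat.Coprime a v ∧
      nrm A (τ - (a * (A / v) : ℕ)) * (8 * v * N) ≤ 1 ∧
      X ≤ C * ((N0 : ℝ) * N / v * (1 + (N : ℝ) ^ 2 * nrm A (τ - (a * (A / v) : ℕ))) ^
        (-(1 / 3) : ℝ) + E) ∧
      X ≤ C * (1 + (N : ℝ) ^ 2 * nrm A (τ - (a * (A / v) : ℕ))) *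
          ((N0 : ℝ) * N / v / (1 + N * nrm A (v * ξ) / v) + E)) :
    X ≤ L2 / 8 +
      ∑ i ∈ Icc 1 ⌊V1⌋₊ ×ˢ range K, (C * (N0 * N) / i.1 * (2 ^ i.2 * s0) ^ (-(1 / 3) : ℝ)) *
        (if nrm A (i.1 * τ) ≤ i.1 * (2 ^ (i.2 + 1) * s0) / N ^ 2 then (1 : ℝ) else 0) +
      ∑ v ∈ Icc 1 ⌊V1⌋₊, (C * (1 + s0) * (N0 * N) / v / y0) *
        (if nrm A (v * τ) ≤ v * s0 / N ^ 2 then (1 : ℝ) else 0) +
      ∑ v ∈ (Icc 1 ⌊V1⌋₊).filter (fun v : ℕ => (v : ℝ) ≤ V0), (C * (N0 * N) / v) *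
        (if Near A (s0 / N ^ 2) (y0 / N) v (0, 0) (τ, ξ) then (1 : ℝ) else 0) +
      ∑ j ∈ (range J).filter (fun j : ℕ => V0 ≤ 2 ^ (j + 1)), (C * (N0 * N) / 2 ^ j) *
        (if ∃ v : ℕ, 2 ^ j ≤ v ∧ v < 2 * 2 ^ j ∧ Near A (s0 / N ^ 2) (y0 / N) v (0, 0) (τ, ξ)
          then (1 : ℝ) else 0) := by
  obtain ⟨v, a, hv1, hv8, hav, hcop, -, hk1, hk2⟩ := hker
  have hNR : (0 : ℝ) < N := by exact_mod_cast hN
  have hN0R : (0 : ℝ) < N0 := by exact_mod_cast hN0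
  have hvR : (0 : ℝ) < v := by exact_mod_cast hv1
  have hvA := hA v hv1 hv8
  set β := nrm A (τ - (a * (A / v) : ℕ)) with hβ
  set s := (N : ℝ) ^ 2 * β with hs
  have hβ0 : 0 ≤ β := nrm_nonneg _
  have hs_nn : 0 ≤ s := by positivity
  have hvτ : nrm A (v * τ) ≤ v * s / N ^ 2 := by
    refine (nrm_v_le A v a hvA τ).trans ?_
    rw [← hβ, hs]
    apply le_of_eq
    field_simp
  set Ta := ∑ i ∈ Icc 1 ⌊V1⌋₊ ×ˢ range K, (C * (N0 * N) / i.1 *
    ((2 : ℝ) ^ i.2 * s0) ^ (-(1 / 3) : ℝ)) *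
        (if nrm A (i.1 * τ) ≤ i.1 * (2 ^ (i.2 + 1) * s0) / N ^ 2 then (1 : ℝ) else 0) with hTa
  set Tb := ∑ v ∈ Icc 1 ⌊V1⌋₊, (C * (1 + s0) * (N0 * N) / v / y0) *
        (if nrm A (v * τ) ≤ v * s0 / N ^ 2 then (1 : ℝ) else 0) with hTb
  set Tc := ∑ v ∈ (Icc 1 ⌊V1⌋₊).filter (fun v : ℕ => (v : ℝ) ≤ V0), (C * (N0 * N) / v) *
        (if Near A (s0 / N ^ 2) (y0 / N) v (0, 0) (τ, ξ) then (1 : ℝ) else 0) with hTc
  set Td := ∑ j ∈ (range J).filter (fun j : ℕ => V0 ≤ 2 ^ (j + 1)), (C * (N0 * N) / 2 ^ j) *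
        (if ∃ v : ℕ, 2 ^ j ≤ v ∧ v < 2 * 2 ^ j ∧ Near A (s0 / N ^ 2) (y0 / N) v (0, 0) (τ, ξ)
          then (1 : ℝ) else 0) with hTd
  have hTa0 : 0 ≤ Ta := ind_nonneg _ _ _ (fun i _ => by positivity)
  have hTb0 : 0 ≤ Tb := ind_nonneg _ _ _ (fun i _ => by positivity)
  have hTc0 : 0 ≤ Tc := ind_nonneg _ _ _ (fun i _ => by positivity)
  have hTd0 : 0 ≤ Td := ind_nonneg _ _ _ (fun i _ => by positivity)
  have hmain0 : 0 ≤ C * (N0 * N) / v := by positivity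
  have hL2 : 0 ≤ L2 := by
    have : 0 ≤ C * (N0 * N) / V1 := by positivity
    linarith
  have hCE : C * E ≤ L2 / 16 := by
    refine le_trans ?_ hm3
    have : 0 ≤ C * s0 * E := by positivity
    nlinarith
  have hpow1 : (1 + s) ^ (-(1 / 3) : ℝ) ≤ 1 :=
    Real.rpow_le_one_of_one_le_of_nonpos (by linarith) (by norm_num)
  have hk1' : X ≤ C * (N0 * N) / v * (1 + s) ^ (-(1 / 3) : ℝ) + C * E := by
    refine hk1.trans (le_of_eq ?_)
    ring
  have hk0 : X ≤ C * (N0 * N) / v + C * E := by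
    refine hk1'.trans ?_
    have := mul_le_mul_of_nonneg_left hpow1 hmain0
    linarith
  -- case 1
  by_cases c1 : V1 < v
  · have : C * (N0 * N) / v ≤ C * (N0 * N) / V1 :=
      div_le_div_of_nonneg_left (by positivity) hV1 c1.le
    linarith
  push Not at c1
  have hvmem : v ∈ Icc 1 ⌊V1⌋₊ := by
    rw [mem_Icc]; exact ⟨hv1, Nat.le_floor c1⟩
  -- case 2
  by_cases c2 : S1 < s
  · have e1 : (1 + s) ^ (-(1 / 3) : ℝ) ≤ S1 ^ (-(1 / 3) : ℝ) :=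
      Real.rpow_le_rpow_of_nonpos hS1 (by linarith) (by norm_num)
    have e2 : C * (N0 * N) / v ≤ C * (N0 * N) := by
      apply div_le_self (by positivity)
      exact_mod_cast hv1
    have e3 : C * (N0 * N) / v * (1 + s) ^ (-(1 / 3) : ℝ) ≤
        C * (N0 * N) * S1 ^ (-(1 / 3) : ℝ) :=
      mul_le_mul e2 e1 (by positivity) (by positivity)
    linarith
  push Not at c2
  -- case 3
  by_cases c3 : s0 ≤ s
  · -- dyadic scale
    have hex : ∃ k : ℕ, s < 2 ^ (k + 1) * s0 := by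
      refine ⟨K, lt_of_le_of_lt c2 (hK.trans_le ?_)⟩
      apply mul_le_mul_of_nonneg_right _ (by linarith)
      exact pow_le_pow_right₀ (by norm_num) (by omega)
    set k := Nat.find hex with hk
    have hk1s : s < 2 ^ (k + 1) * s0 := Nat.find_spec hex
    have hk2s : 2 ^ k * s0 ≤ s := by
      rcases Nat.eq_zero_or_pos k with h0 | hpos
      · rw [h0]; simpa using c3
      · have hlt : k - 1 < k := by omega
        have := Nat.find_min hex hlt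
        push Not at this
        rwa [Nat.sub_add_cancel hpos] at this
    have hkK : k < K := by
      by_contra h
      push Not at h
      have e1 : (2 : ℝ) ^ K * s0 ≤ 2 ^ k * s0 := by
        apply mul_le_mul_of_nonneg_right _ (by linarith)
        exact pow_le_pow_right₀ (by norm_num) h
      linarith
    have hmem : (v, k) ∈ Icc 1 ⌊V1⌋₊ ×ˢ range K := by
      rw [mem_product, mem_range]; exact ⟨hvmem, hkK⟩
    have hP : nrm A (((v, k) : ℕ × ℕ).1 * τ) ≤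
        (((v, k) : ℕ × ℕ).1 : ℝ) * (2 ^ (((v, k) : ℕ × ℕ).2 + 1) * s0) / N ^ 2 := by
      refine hvτ.trans ?_
      apply div_le_div_of_nonneg_right _ (by positivity)
      exact mul_le_mul_of_nonneg_left hk1s.le hvR.le
    have hle := ind_le_sum (Icc 1 ⌊V1⌋₊ ×ˢ range K)
      (fun i => C * (N0 * N) / i.1 * ((2 : ℝ) ^ i.2 * s0) ^ (-(1 / 3) : ℝ))
      (fun i => nrm A (i.1 * τ) ≤ i.1 * (2 ^ (i.2 + 1) * s0) / N ^ 2)
      (fun i _ => by positivity) (v, k) hmem hP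
    have hle' : C * (N0 * N) / v * ((2 : ℝ) ^ k * s0) ^ (-(1 / 3) : ℝ) ≤ Ta := hle
    have e1 : (1 + s) ^ (-(1 / 3) : ℝ) ≤ ((2 : ℝ) ^ k * s0) ^ (-(1 / 3) : ℝ) :=
      Real.rpow_le_rpow_of_nonpos (by positivity) (by linarith) (by norm_num)
    have e2 := mul_le_mul_of_nonneg_left e1 hmain0
    linarith
  push Not at c3
  -- case 4
  by_cases c4 : y0 ≤ N * nrm A (v * ξ) / v
  · have hP : nrm A (v * τ) ≤ v * s0 / N ^ 2 := by
      refine hvτ.trans ?_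
      apply div_le_div_of_nonneg_right _ (by positivity)
      exact mul_le_mul_of_nonneg_left c3.le hvR.le
    have hle := ind_le_sum (Icc 1 ⌊V1⌋₊) (fun v : ℕ => C * (1 + s0) * (N0 * N) / v / y0)
      (fun v : ℕ => nrm A (v * τ) ≤ v * s0 / N ^ 2) (fun i _ => by positivity) v hvmem hP
    have hle' : C * (1 + s0) * (N0 * N) / v / y0 ≤ Tb := hle
    have e1 : (N0 : ℝ) * N / v / (1 + N * nrm A (v * ξ) / v) ≤ (N0 : ℝ) * N / v / y0 :=
      div_le_div_of_nonneg_left (by positivity) hy0 (by linarith)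
    have e2 : C * (1 + s) * ((N0 : ℝ) * N / v / (1 + N * nrm A (v * ξ) / v) + E) ≤
        C * (1 + s0) * ((N0 : ℝ) * N / v / y0 + E) := by
      apply mul_le_mul
      · exact mul_le_mul_of_nonneg_left (by linarith) hC.le
      · linarith
      · have : 0 ≤ N * nrm A (v * ξ) / v := by
          have := nrm_nonneg ((v : ZMod A) * ξ)
          positivity
        positivity
      · positivity
    have e3 : C * (1 + s0) * ((N0 : ℝ) * N / v / y0 + E) =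
        C * (1 + s0) * (N0 * N) / v / y0 + C * (1 + s0) * E := by ring
    linarith
  push Not at c4
  -- the pair is near
  have hnear : Near A (s0 / N ^ 2) (y0 / N) v (0, 0) (τ, ξ) := by
    obtain ⟨b, hb, hb2⟩ := exists_b A v hv1 hvA ξ
    refine ⟨a, b, hav, hb, hcop, ?_, ?_⟩
    · simp only [sub_zero]
      rw [← hβ, le_div_iff₀ (by positivity)]
      rw [hs] at c3
      linarith
    · simp only [sub_zero]
      refine hb2.trans ?_
      rw [le_div_iff₀ hNR]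
      have : N * nrm A (v * ξ) / v = nrm A (v * ξ) / v * N := by ring
      linarith
  by_cases c5 : (v : ℝ) ≤ V0
  · have hmem : v ∈ (Icc 1 ⌊V1⌋₊).filter (fun v : ℕ => (v : ℝ) ≤ V0) := by
      rw [mem_filter]; exact ⟨hvmem, c5⟩
    have hle := ind_le_sum ((Icc 1 ⌊V1⌋₊).filter (fun v : ℕ => (v : ℝ) ≤ V0))
      (fun v : ℕ => C * (N0 * N) / v)
      (fun v : ℕ => Near A (s0 / N ^ 2) (y0 / N) v (0, 0) (τ, ξ)) (fun i _ => by positivity)
      v hmem hnear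
    have hle' : C * (N0 * N) / v ≤ Tc := hle
    linarith
  push Not at c5
  set j := Nat.log 2 v with hj
  have hj1 : 2 ^ j ≤ v := Nat.pow_log_le_self 2 (by omega)
  have hj2 : v < 2 ^ (j + 1) := Nat.lt_pow_succ_log_self (by norm_num) v
  have hjJ : j < J := by
    rw [mem_Icc] at hvmem
    have : 2 ^ j < 2 ^ J := lt_of_le_of_lt (hj1.trans hvmem.2) hJ
    exact (Nat.pow_lt_pow_iff_right (by norm_num)).mp this
  have hmem : j ∈ (range J).filter (fun j : ℕ => V0 ≤ 2 ^ (j + 1)) := by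
    rw [mem_filter, mem_range]
    refine ⟨hjJ, c5.le.trans ?_⟩
    have : (v : ℝ) < 2 ^ (j + 1) := by exact_mod_cast hj2
    exact this.le
  have hP : ∃ v : ℕ, 2 ^ j ≤ v ∧ v < 2 * 2 ^ j ∧ Near A (s0 / N ^ 2) (y0 / N) v (0, 0) (τ, ξ) :=
    ⟨v, hj1, by rw [pow_succ] at hj2; omega, hnear⟩
  have hle := ind_le_sum ((range J).filter (fun j : ℕ => V0 ≤ 2 ^ (j + 1)))
    (fun j : ℕ => C * (N0 * N) / 2 ^ j)
    (fun j : ℕ => ∃ v : ℕ, 2 ^ j ≤ v ∧ v < 2 * 2 ^ j ∧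
      Near A (s0 / N ^ 2) (y0 / N) v (0, 0) (τ, ξ)) (fun i _ => by positivity)
    j hmem hP
  have hle' : C * (N0 * N) / 2 ^ j ≤ Td := hle
  have e1 : C * (N0 * N) / v ≤ C * (N0 * N) / 2 ^ j := by
    apply div_le_div_of_nonneg_left (by positivity) (by positivity)
    exact_mod_cast hj1
  linarith

end Stz.H6
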