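import Pool.Agent.Helper6.Stz.TopPoint
import Pool.Agent.Helper6.Stz.TopNum

/-!
# MP_65a63f_an, module C8: sums and sizes (helper6)
-/

set_option autoImplicit false

namespace Stz.H6

open Finset

theorem norm_F_sq_le (A N : ℕ) [NeZero A] (I : Finset ℕ) (a : ℕ → ℕ → ℂ) (z y : ZMod A) :
    ‖F A I N a z y‖ ^ 2 ≤ I.card * N * nsq I N a := by
  have h1 : ‖F A I N a z y‖ ≤ ∑ p ∈ I ×ˢ range N, ‖a p.1 p.2‖ := by
    rw [sum_product]
    refine (norm_sum_le _ _).trans (sum_le_sum fun n _ => (norm_sum_le _ _).trans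
      (sum_le_sum fun m _ => ?_))
    rw [norm_mul]
    have : ‖ps A (((n ^ 2 + m ^ 2 : ℕ) : ZMod A) * z + (m : ZMod A) * y)‖ = 1 :=
      AddChar.norm_apply _ _
    rw [this, mul_one]
  calc ‖F A I N a z y‖ ^ 2 ≤ (∑ p ∈ I ×ˢ range N, ‖a p.1 p.2‖) ^ 2 := by gcongr
    _ ≤ ((I ×ˢ range N).card : ℝ) * ∑ p ∈ I ×ˢ range N, ‖a p.1 p.2‖ ^ 2 :=
        sq_sum_le_card_mul_sum_sq
    _ = I.card * N * nsq I N a := by
        rw [card_product, card_range, sum_product]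
        push_cast
        rfl

theorem near_zero (A : ℕ) (δ1 δ2 : ℝ) (v : ℕ) (w w' : ZMod A × ZMod A) :
    Near A δ1 δ2 v (0, 0) (w'.1 - w.1, w'.2 - w.2) ↔ Near A δ1 δ2 v w w' := by
  simp [Near]

theorem A_ge (M A : ℕ) [NeZero A] (hM : 1 ≤ M) (h : Good M A) : M ≤ A :=
  Nat.le_of_dvd (Nat.pos_of_ne_zero (NeZero.ne A)) (h M hM le_rfl)

theorem pow30 (M : ℕ) (hM : 2 ≤ M) : 1000 * M ^ 2 ≤ M ^ 30 := by
  have h1 : M ^ 30 = M ^ 28 * M ^ 2 := by rw [← pow_add]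
  have h2 : 1000 ≤ M ^ 28 := by
    calc 1000 ≤ 2 ^ 10 := by norm_num
      _ ≤ M ^ 10 := Nat.pow_le_pow_left hM 10
      _ ≤ M ^ 28 := Nat.pow_le_pow_right (by omega) (by norm_num)
  rw [h1]
  exact Nat.mul_le_mul_right _ h2

theorem sizes (N b A P : ℕ) (hN : 1 ≤ N) (hP : 1000 * (N + b + 1) ^ 2 ≤ P) (h : P ≤ A) :
    16 * (b + N) ^ 2 < A ∧ N ^ 2 ≤ A ∧ 8 * N ≤ P := by
  have h1 : (b + N) ^ 2 ≤ (N + b + 1) ^ 2 := Nat.pow_le_pow_left (by omega) 2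
  have h2 : N ^ 2 ≤ (N + b + 1) ^ 2 := Nat.pow_le_pow_left (by omega) 2
  have h3 : N ≤ (N + b + 1) ^ 2 := le_trans (by nlinarith) h2
  have h4 : 1 ≤ (N + b + 1) ^ 2 := Nat.one_le_pow _ _ (by omega)
  generalize (N + b + 1) ^ 2 = q at *
  generalize (b + N) ^ 2 = r at *
  generalize N ^ 2 = u at *
  refine ⟨by omega, by omega, by omega⟩

theorem J_bound (B t V1 : ℝ) (hB : 1 ≤ B) (ht : 1 ≤ t) (hV1 : V1 = B * t ^ 600) :
    ((Nat.log 2 ⌊V1⌋₊ + 1 : ℕ) : ℝ) ≤ (1 + 2 * Real.log B + 1200) * t := by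
  have hV : 1 ≤ V1 := by
    rw [hV1]; exact one_le_mul_of_one_le_of_one_le hB (one_le_pow₀ ht)
  have ht0 : 0 < t := by linarith
  have hB0 : 0 < B := by linarith
  have hfl : 1 ≤ ⌊V1⌋₊ := by
    rw [Nat.one_le_floor_iff]; exact hV
  obtain ⟨l, hl⟩ : ∃ l, l = Nat.log 2 ⌊V1⌋₊ := ⟨_, rfl⟩
  have h1 : 2 ^ l ≤ ⌊V1⌋₊ := by rw [hl]; exact Nat.pow_log_le_self 2 (by omega)
  have h2 : (2 : ℝ) ^ l ≤ V1 := by
    have h3 : ((2 ^ l : ℕ) : ℝ) ≤ (⌊V1⌋₊ : ℝ) := by exact_mod_cast h1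
    push_cast at h3
    exact h3.trans (Nat.floor_le (by linarith))
  have h3 : (l : ℝ) * Real.log 2 ≤ Real.log B + 600 * Real.log t := by
    have h4 := Real.log_le_log (by positivity) h2
    rw [Real.log_pow, hV1, Real.log_mul (by positivity) (by positivity), Real.log_pow] at h4
    push_cast at h4
    exact h4
  have h5 : Real.log t ≤ t - 1 := Real.log_le_sub_one_of_pos ht0
  have h6 : (1 / 2 : ℝ) ≤ Real.log 2 := by
    have := Real.log_two_gt_d9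
    linarith
  have h7 : 0 ≤ Real.log B := Real.log_nonneg hB
  have h8 : (l : ℝ) * (1 / 2) ≤ Real.log B + 600 * (t - 1) := by
    have h9 : (l : ℝ) * (1 / 2) ≤ l * Real.log 2 := by gcongr
    linarith
  rw [← hl]
  push_cast
  nlinarith

theorem err_bound (C p t N : ℝ) (hC : 0 < C) (hp1 : 1 ≤ p) (hp : 640 * C ≤ p) (ht : 1 ≤ t)
    (hN : N = p ^ 10) (htp : t ^ 600 ≤ p) :
    C * (1 + t ^ 48) * (N ^ (3 / 2 : ℝ) * Real.log (2 * N)) ≤ N ^ 2 / t ^ 600 / 16 := by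
  have hp0 : 0 < p := by linarith
  have ht0 : 0 < t := by linarith
  have e1 : N ^ (3 / 2 : ℝ) = p ^ 15 := by
    rw [hN, ← Real.rpow_natCast p 10, ← Real.rpow_mul hp0.le, ← Real.rpow_natCast p 15]
    norm_num
  have e2 : Real.log (2 * N) ≤ 20 * p := by
    rw [hN, Real.log_mul (by norm_num) (by positivity), Real.log_pow]
    have h1 := Real.log_le_sub_one_of_pos hp0
    have h2 := Real.log_two_lt_d9
    push_cast
    linarith
  have e3 : 1 + t ^ 48 ≤ 2 * p := by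
    have h1 : (1 : ℝ) ≤ t ^ 48 := one_le_pow₀ ht
    have h2 : t ^ 48 ≤ t ^ 600 := pow_le_pow_right₀ ht (by norm_num)
    linarith
  have hlog : 0 ≤ Real.log (2 * N) := by
    apply Real.log_nonneg
    have : (1 : ℝ) ≤ p ^ 10 := one_le_pow₀ hp1
    rw [hN]; linarith
  calc C * (1 + t ^ 48) * (N ^ (3 / 2 : ℝ) * Real.log (2 * N))
      ≤ C * (2 * p) * (p ^ 15 * (20 * p)) := by
        rw [e1]
        gcongr
    _ = (640 * C) * p ^ 17 / 16 := by ring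
    _ ≤ p * p ^ 17 / 16 := by gcongr
    _ ≤ p ^ 19 / 16 := by
        have : p * p ^ 17 = p ^ 18 := by ring
        rw [this]
        have : p ^ 18 ≤ p ^ 19 := pow_le_pow_right₀ hp1 (by norm_num)
        linarith
    _ = N ^ 2 / p / 16 := by rw [hN]; field_simp
    _ ≤ _ := by gcongr

open Classical in
theorem count_le (N N0 A : ℕ) [NeZero A] (a : ℕ → ℕ → ℂ) (I : Finset ℕ) (lam L2 Cw : ℝ)
    (hlam : 0 < lam) (hL : lam ^ 2 = L2) (hN0 : 0 < (N0 : ℝ)) (hCw : 0 < Cw)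
    (ha : nsq I N a ≤ 1) (w : ZMod A × ZMod A) (v : ℕ) (S : ℝ)
    (h1 : ∑ z ∈ univ.filter (fun z : ZMod A => nrm A (v * (z - w.1)) ≤ v * S / N ^ 2),
      ∑ y, ‖F A I N a z y‖ ^ 2 ≤ Cw * sg v / N0 * nsq I N a * A ^ 2) :
    (((lev A I N a lam).filter fun w' => nrm A (v * (w'.1 - w.1)) ≤ v * S / N ^ 2).card : ℝ) ≤
        Cw * A ^ 2 / (N0 * L2) * sg v := by
  have h2 : Cw * sg v / N0 * nsq I N a * A ^ 2 ≤ Cw * sg v / N0 * 1 * A ^ 2 := by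
    gcongr
  have h3 := wcount A N I a lam _ hlam _ (h1.trans h2)
  have h4 : (lev A I N a lam).filter (fun w' => nrm A (v * (w'.1 - w.1)) ≤ v * S / N ^ 2) =
      (lev A I N a lam).filter (fun w' => w'.1 ∈ univ.filter
        (fun z : ZMod A => nrm A (v * (z - w.1)) ≤ v * S / N ^ 2)) := by
    apply filter_congr
    intro w' _
    simp
  rw [h4]
  refine h3.trans (le_of_eq ?_)
  have hL20 : 0 < L2 := by rw [← hL]; positivity
  rw [hL]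
  field_simp

theorem sum_a (V K : ℕ) (C Cw N N0 A L2 s0 X1 X2 : ℝ) (hC : 0 < C) (hCw : 0 < Cw) (hN : 0 < N)
    (hN0 : 0 < N0) (hA : 0 < A) (hL2 : 0 < L2) (hs0 : 0 < s0) (cnt : ℕ × ℕ → ℝ)
    (hcnt : ∀ i ∈ Icc 1 V ×ˢ range K, cnt i ≤ Cw * A ^ 2 / (N0 * L2) * sg i.1)
    (h1 : ∑ v ∈ Icc 1 V, (sg v : ℝ) / v ≤ X1)
    (h2 : ∑ k ∈ range K, ((2 : ℝ) ^ k * s0) ^ (-(1 / 3) : ℝ) ≤ X2) :
    ∑ i ∈ Icc 1 V ×ˢ range K, (C * (N0 * N) / i.1 * ((2 : ℝ) ^ i.2 * s0) ^ (-(1 / 3) : ℝ)) *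
      cnt i ≤ (C * Cw * N * A ^ 2 / L2) * (X1 * X2) := by
  calc _ ≤ ∑ i ∈ Icc 1 V ×ˢ range K, (C * (N0 * N) / i.1 * ((2 : ℝ) ^ i.2 * s0) ^ (-(1 / 3) : ℝ)) *
        (Cw * A ^ 2 / (N0 * L2) * sg i.1) := by
        apply sum_le_sum
        intro i hi
        exact mul_le_mul_of_nonneg_left (hcnt i hi) (by positivity)
    _ = (C * Cw * N * A ^ 2 / L2) * ((∑ v ∈ Icc 1 V, (sg v : ℝ) / v) *
          ∑ k ∈ range K, ((2 : ℝ) ^ k * s0) ^ (-(1 / 3) : ℝ)) := by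
        rw [sum_mul_sum, ← sum_product', mul_sum]
        apply sum_congr rfl
        intro i _
        field_simp
    _ ≤ _ := by
        have h3 : 0 ≤ ∑ k ∈ range K, ((2 : ℝ) ^ k * s0) ^ (-(1 / 3) : ℝ) :=
          sum_nonneg fun _ _ => by positivity
        have h4 : 0 ≤ ∑ v ∈ Icc 1 V, (sg v : ℝ) / v := sum_nonneg fun _ _ => by positivity
        apply mul_le_mul_of_nonneg_left _ (by positivity)
        exact mul_le_mul h1 h2 h3 (h4.trans h1)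

theorem sum_b (V : ℕ) (C Cw N N0 A L2 s0 y0 X1 : ℝ) (hC : 0 < C) (hCw : 0 < Cw) (hN : 0 < N)
    (hN0 : 0 < N0) (hA : 0 < A) (hL2 : 0 < L2) (hs0 : 0 < s0) (hy0 : 0 < y0) (cnt : ℕ → ℝ)
    (hcnt : ∀ i ∈ Icc 1 V, cnt i ≤ Cw * A ^ 2 / (N0 * L2) * sg i)
    (h1 : ∑ v ∈ Icc 1 V, (sg v : ℝ) / v ≤ X1) :
    ∑ v ∈ Icc 1 V, (C * (1 + s0) * (N0 * N) / v / y0) * cnt v ≤
      (C * Cw * N * A ^ 2 / L2) * ((1 + s0) / y0) * X1 := by
  calc _ ≤ ∑ v ∈ Icc 1 V, (C * (1 + s0) * (N0 * N) / v / y0) *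
        (Cw * A ^ 2 / (N0 * L2) * sg v) := by
        apply sum_le_sum
        intro i hi
        exact mul_le_mul_of_nonneg_left (hcnt i hi) (by positivity)
    _ = (C * Cw * N * A ^ 2 / L2) * ((1 + s0) / y0) * (∑ v ∈ Icc 1 V, (sg v : ℝ) / v) := by
        rw [mul_sum]
        apply sum_congr rfl
        intro i _
        field_simp
    _ ≤ _ := mul_le_mul_of_nonneg_left h1 (by positivity)

theorem sum_c (V : ℕ) (C N N0 V0 δ : ℝ) (hC : 0 < C) (hN0 : 0 < N0) (hN0N : N0 ≤ N)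
    (hV0 : 0 ≤ V0) (hδ : 0 ≤ δ) (cnt : ℕ → ℝ) (hcnt0 : ∀ v, 0 ≤ cnt v)
    (hcnt : ∀ v : ℕ, cnt v ≤ (v : ℝ) ^ 2 * δ) :
    ∑ v ∈ (Icc 1 V).filter (fun v : ℕ => (v : ℝ) ≤ V0), (C * (N0 * N) / v) * cnt v ≤
      (C * (N * N) * δ) * V0 ^ 2 := by
  have hN : 0 < N := by linarith
  have hsumv : (∑ v ∈ (Icc 1 V).filter (fun v : ℕ => (v : ℝ) ≤ V0), (v : ℝ)) ≤ V0 ^ 2 := by
    have hsub : (Icc 1 V).filter (fun v : ℕ => (v : ℝ) ≤ V0) ⊆ Icc 1 ⌊V0⌋₊ := by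
      intro v hv
      rw [mem_filter, mem_Icc] at hv
      rw [mem_Icc]
      exact ⟨hv.1.1, Nat.le_floor hv.2⟩
    calc _ ≤ ∑ v ∈ Icc 1 ⌊V0⌋₊, (v : ℝ) :=
          sum_le_sum_of_subset_of_nonneg hsub fun _ _ _ => by positivity
      _ ≤ ∑ v ∈ Icc 1 ⌊V0⌋₊, V0 := by
          apply sum_le_sum
          intro v hv
          rw [mem_Icc] at hv
          have : (v : ℝ) ≤ (⌊V0⌋₊ : ℝ) := by exact_mod_cast hv.2
          exact this.trans (Nat.floor_le hV0)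
      _ = (⌊V0⌋₊ : ℝ) * V0 := by
          rw [sum_const, nsmul_eq_mul, Nat.card_Icc]
          simp
      _ ≤ V0 * V0 := by
          apply mul_le_mul_of_nonneg_right (Nat.floor_le hV0) hV0
      _ = V0 ^ 2 := by ring
  calc _ ≤ ∑ v ∈ (Icc 1 V).filter (fun v : ℕ => (v : ℝ) ≤ V0), (C * (N * N) * δ) * v := by
        apply sum_le_sum
        intro v hv
        rw [mem_filter, mem_Icc] at hv
        have hv0 : (0 : ℝ) < v := by
          have : 0 < v := by omega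
          exact_mod_cast this
        calc _ ≤ (C * (N * N) / v) * (v ^ 2 * δ) := by
              apply mul_le_mul _ (hcnt v) (hcnt0 v) (by positivity)
              gcongr
          _ = _ := by field_simp
    _ = (C * (N * N) * δ) * ∑ v ∈ (Icc 1 V).filter (fun v : ℕ => (v : ℝ) ≤ V0), (v : ℝ) := by
        rw [mul_sum]
    _ ≤ _ := mul_le_mul_of_nonneg_left hsumv (by positivity)

/-- all size conditions -/
theorem num_facts (B t p N V1 s0 y0 S1 : ℝ) (hB : 1 ≤ B) (ht : 1 ≤ t) (hp : 1 ≤ p)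
    (hpB : 64 * B ^ 4 ≤ p) (hp1 : 1 < p) (htp : t ^ 600 ≤ p) (hN : N = p ^ 10)
    (hV1 : V1 = B * t ^ 600)
    (hs0 : s0 = t ^ 48) (hy0 : y0 = t ^ 72) (hS1 : S1 = V1 ^ 3) :
    V1 * (2 * S1) ≤ N ∧ 2 * V1 * s0 ≤ N ∧ 64 * V1 ^ 4 * s0 < N ^ 2 ∧ 64 * V1 ^ 2 * y0 < N ∧
      2 * V1 ≤ N := by
  have ht0 : 0 < t := by linarith
  have hB0 : 0 < B := by linarith
  have htk : ∀ k m : ℕ, k ≤ 600 * m → t ^ k ≤ p ^ m := by
    intro k m hkm
    calc t ^ k ≤ t ^ (600 * m) := pow_le_pow_right₀ ht hkm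
      _ = (t ^ 600) ^ m := by rw [pow_mul]
      _ ≤ p ^ m := pow_le_pow_left₀ (by positivity) htp m
  have hB1' : B ≤ B ^ 4 := le_self_pow₀ hB (by norm_num)
  have hB2' : B ^ 2 ≤ B ^ 4 := pow_le_pow_right₀ hB (by norm_num)
  have hB40 : 0 < B ^ 4 := by positivity
  have h4 : 0 < 64 * B ^ 4 := by positivity
  refine ⟨?_, ?_, ?_, ?_, ?_⟩
  · have e := htk 2400 4 (by norm_num)
    calc V1 * (2 * S1) = 2 * B ^ 4 * t ^ 2400 := by rw [hS1, hV1]; ring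
      _ ≤ 64 * B ^ 4 * t ^ 2400 := by
          apply mul_le_mul_of_nonneg_right _ (by positivity)
          linarith
      _ ≤ p * p ^ 4 := mul_le_mul hpB e (by positivity) (by linarith)
      _ = p ^ 5 := by ring
      _ ≤ p ^ 10 := pow_le_pow_right₀ hp (by norm_num)
      _ = N := hN.symm
  · have e := htk 648 2 (by norm_num)
    calc 2 * V1 * s0 = 2 * B * t ^ 648 := by rw [hs0, hV1]; ring
      _ ≤ 64 * B ^ 4 * t ^ 648 := by
          apply mul_le_mul_of_nonneg_right _ (by positivity)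
          linarith
      _ ≤ p * p ^ 2 := mul_le_mul hpB e (by positivity) (by linarith)
      _ = p ^ 3 := by ring
      _ ≤ p ^ 10 := pow_le_pow_right₀ hp (by norm_num)
      _ = N := hN.symm
  · have e := htk 2448 5 (by norm_num)
    calc 64 * V1 ^ 4 * s0 = 64 * B ^ 4 * t ^ 2448 := by rw [hs0, hV1]; ring
      _ ≤ p * p ^ 5 := mul_le_mul hpB e (by positivity) (by linarith)
      _ = p ^ 6 := by ring
      _ < p ^ 20 := pow_lt_pow_right₀ hp1 (by norm_num)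
      _ = N ^ 2 := by rw [hN]; ring
  · have e := htk 1272 3 (by norm_num)
    calc 64 * V1 ^ 2 * y0 = 64 * B ^ 2 * t ^ 1272 := by rw [hy0, hV1]; ring
      _ ≤ 64 * B ^ 4 * t ^ 1272 := by
          apply mul_le_mul_of_nonneg_right _ (by positivity)
          linarith
      _ ≤ p * p ^ 3 := mul_le_mul hpB e (by positivity) (by linarith)
      _ = p ^ 4 := by ring
      _ < p ^ 10 := pow_lt_pow_right₀ hp1 (by norm_num)
      _ = N := hN.symm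
  · have e := htk 600 1 (by norm_num)
    calc 2 * V1 = 2 * B * t ^ 600 := by rw [hV1]; ring
      _ ≤ 64 * B ^ 4 * t ^ 600 := by
          apply mul_le_mul_of_nonneg_right _ (by positivity)
          linarith
      _ ≤ p * p ^ 1 := mul_le_mul hpB e (by positivity) (by linarith)
      _ = p ^ 2 := by ring
      _ ≤ p ^ 10 := pow_le_pow_right₀ hp (by norm_num)
      _ = N := hN.symm

theorem rp600 (B t V1 : ℝ) (hB : 0 < B) (ht : 0 < t) (hV1 : V1 = B * t ^ 600) :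
    V1 ^ (1 / 600 : ℝ) = B ^ (1 / 600 : ℝ) * t := by
  rw [hV1, Real.mul_rpow hB.le (by positivity), ← Real.rpow_natCast t 600,
    ← Real.rpow_mul ht.le]
  norm_num

theorem s03 (t s0 : ℝ) (ht : 0 < t) (hs0 : s0 = t ^ 48) :
    s0 ^ (-(1 / 3) : ℝ) = 1 / t ^ 16 := by
  rw [hs0, ← Real.rpow_natCast t 48, ← Real.rpow_mul ht.le]
  norm_num

theorem S13 (V1 S1 : ℝ) (hV1 : 0 < V1) (hS1 : S1 = V1 ^ 3) : S1 ^ (-(1 / 3) : ℝ) = V1⁻¹ := by
  rw [hS1, ← Real.rpow_natCast V1 3, ← Real.rpow_mul hV1.le]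
  norm_num
  rw [Real.rpow_neg hV1.le, Real.rpow_one]

/-- final bound for (a) -/
theorem fin_a (C Cw Csg Be C1 : ℝ) (hC : 0 < C) (hCw : 0 < Cw) (hCsg : 0 < Csg) (hBe : 0 < Be)
    (hC1 : 8 * (5 * C * Cw * Csg * Be) ≤ C1) (t N A n L2 : ℝ) (ht : 1 ≤ t) (hN : 0 < N)
    (hA : 0 < A) (hL2 : L2 = N ^ 2 / t ^ 600) (hP : C1 * t ^ 1188 * A ^ 2 / N ^ 3 ≤ n) :
    (C * Cw * N * A ^ 2 / L2) * ((Csg * (Be * t)) * (5 * (1 / t ^ 16))) ≤ L2 * n / 8 := by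
  have ht0 : 0 < t := by linarith
  have q : 0 < 5 * C * Cw * Csg * Be := by positivity
  have := num_ab (5 * C * Cw * Csg * Be) C1 15 (by norm_num) hC1 q.le t N A n ht hN hA hP
  rw [hL2]
  refine le_trans (le_of_eq ?_) this
  have e2 : (t : ℝ) ^ 16 = t ^ 15 * t := by ring
  rw [e2]
  field_simp

theorem fin_b (C Cw Csg Be C1 : ℝ) (hC : 0 < C) (hCw : 0 < Cw) (hCsg : 0 < Csg) (hBe : 0 < Be)
    (hC1 : 8 * (2 * C * Cw * Csg * Be) ≤ C1) (t N A n L2 : ℝ) (ht : 1 ≤ t) (hN : 0 < N)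
    (hA : 0 < A) (hL2 : L2 = N ^ 2 / t ^ 600) (hP : C1 * t ^ 1188 * A ^ 2 / N ^ 3 ≤ n) :
    (C * Cw * N * A ^ 2 / L2) * ((1 + t ^ 48) / t ^ 72) * (Csg * (Be * t)) ≤ L2 * n / 8 := by
  have ht0 : 0 < t := by linarith
  have q : 0 < 2 * C * Cw * Csg * Be := by positivity
  have := num_ab (2 * C * Cw * Csg * Be) C1 23 (by norm_num) hC1 q.le t N A n ht hN hA hP
  have h1 : (1 + t ^ 48) / t ^ 72 ≤ 2 / t ^ 24 := by
    rw [div_le_div_iff₀ (by positivity) (by positivity)]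
    have h2 : (1 : ℝ) ≤ t ^ 48 := one_le_pow₀ ht
    calc (1 + t ^ 48) * t ^ 24 ≤ (2 * t ^ 48) * t ^ 24 := by
          apply mul_le_mul_of_nonneg_right _ (by positivity)
          linarith
      _ = 2 * t ^ 72 := by ring
  have hL20 : 0 < L2 := by rw [hL2]; positivity
  calc _ ≤ (C * Cw * N * A ^ 2 / L2) * (2 / t ^ 24) * (Csg * (Be * t)) := by gcongr
    _ = (2 * C * Cw * Csg * Be) * N * A ^ 2 / (N ^ 2 / t ^ 600) / t ^ 23 := by
        have e2 : (t : ℝ) ^ 24 = t ^ 23 * t := by ring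
        rw [e2, hL2]
        field_simp
    _ ≤ L2 * n / 8 := by rw [hL2]; exact this

theorem fin_c (C C1 : ℝ) (hC : 0 < C)
    (hC1 : 8 * (9 * C) ≤ C1) (t N A n L2 : ℝ) (ht : 1 ≤ t) (hN : 0 < N)
    (hA : 0 < A) (hL2 : L2 = N ^ 2 / t ^ 600) (hP : C1 * t ^ 1188 * A ^ 2 / N ^ 3 ≤ n) :
    (C * (N * N) * (9 * (t ^ 48 / N ^ 2 * (t ^ 72 / N) * A ^ 2))) * (t ^ 228) ^ 2 ≤
      L2 * n / 8 := by
  have ht0 : 0 < t := by linarith
  have := num_c (9 * C) C1 hC1 (by positivity) t N A n ht hN hA hP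
  rw [hL2]
  refine le_trans (le_of_eq ?_) this
  rw [← pow_mul]
  field_simp

end Stz.H6
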