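import Pool.Agent.Helper6.Stz.Path

/-!
# MP_65a63f_an, module C8, tools (helper6)
-/

set_option autoImplicit false

namespace Stz.H6

open Finset

theorem exists_b (A : ℕ) [NeZero A] (v : ℕ) (hv : 1 ≤ v) (hvA : v ∣ A) (ξ : ZMod A) :
    ∃ b : ℕ, b < v ∧ nrm A (ξ - ((b * (A / v) : ℕ) : ZMod A)) ≤ nrm A (v * ξ) / v := by
  obtain ⟨d, hd⟩ := hvA
  have hA0 : 0 < A := Nat.pos_of_ne_zero (NeZero.ne A)
  have hdiv : A / v = d := by
    rw [hd]; exact Nat.mul_div_cancel_left d (by omega)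
  have hv0 : (0 : ℤ) < v := by exact_mod_cast hv
  set k := ((v : ZMod A) * ξ).valMinAbs with hk
  have h1 : ((k : ℤ) : ZMod A) = (((v * ξ.val : ℕ) : ℤ) : ZMod A) := by
    rw [hk, ZMod.coe_valMinAbs]; push_cast; rw [ZMod.natCast_zmod_val]
  have h2 : (A : ℤ) ∣ ((v * ξ.val : ℕ) : ℤ) - k :=
    (ZMod.intCast_eq_intCast_iff_dvd_sub _ _ _).mp h1
  obtain ⟨e, he⟩ := h2
  have h3 : (v : ℤ) ∣ k := by
    refine ⟨(ξ.val : ℤ) - d * e, ?_⟩
    have : (A : ℤ) = v * d := by exact_mod_cast hd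
    rw [this] at he
    push_cast at he
    linarith
  obtain ⟨k', hk'⟩ := h3
  have h4 : (ξ.val : ℤ) = k' + d * e := by
    have : (A : ℤ) = v * d := by exact_mod_cast hd
    rw [this, hk'] at he
    push_cast at he
    have h5 : (v : ℤ) * ξ.val = v * (k' + d * e) := by linarith
    exact mul_left_cancel₀ hv0.ne' h5
  set b : ℕ := (e % v).toNat with hb
  have hb0 : (b : ℤ) = e % v := by
    rw [hb]; exact Int.toNat_of_nonneg (Int.emod_nonneg _ hv0.ne')
  have hbv : b < v := by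
    have := Int.emod_lt_of_pos e hv0
    rw [← hb0] at this
    exact_mod_cast this
  refine ⟨b, hbv, ?_⟩
  rw [hdiv]
  have h6 : ((k' : ℤ) : ZMod A) = ξ - ((b * d : ℕ) : ZMod A) := by
    have e1 : ξ = ((ξ.val : ℤ) : ZMod A) := by
      push_cast; rw [ZMod.natCast_zmod_val]
    have e2 : (e : ℤ) = b + v * (e / v) := by
      rw [hb0]; exact (Int.emod_add_mul_ediv e v).symm
    have e3 : ((ξ.val : ℤ) : ZMod A) = ((k' + b * d + A * (e / v) : ℤ) : ZMod A) := by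
      congr 1
      rw [h4]
      have : (A : ℤ) = v * d := by exact_mod_cast hd
      rw [this]
      conv_lhs => rw [e2]
      ring
    rw [e1, e3]
    push_cast
    simp
  refine (nrm_le_of_int _ k' h6).trans ?_
  unfold nrm
  rw [← hk, hk']
  push_cast
  rw [abs_mul, Nat.abs_cast]
  have hvR : (0 : ℝ) < v := by exact_mod_cast hv
  apply le_of_eq
  field_simp

/-- multiples kill the rational part -/
theorem nrm_v_le (A : ℕ) [NeZero A] (v a : ℕ) (hvA : v ∣ A) (τ : ZMod A) :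
    nrm A (v * τ) ≤ v * nrm A (τ - ((a * (A / v) : ℕ) : ZMod A)) := by
  have h : (v : ZMod A) * τ = v * (τ - ((a * (A / v) : ℕ) : ZMod A)) := by
    have h1 : ((v * (a * (A / v)) : ℕ) : ZMod A) = 0 := by
      have : v * (a * (A / v)) = A * a := by
        rw [mul_left_comm, Nat.mul_div_cancel' hvA, mul_comm]
      rw [this]; push_cast; simp
    push_cast at h1 ⊢
    rw [mul_sub, h1, sub_zero]
  rw [h]
  exact nrm_natMul_le v _

theorem ind_le_sum {ι : Type*} (J : Finset ι) (c : ι → ℝ) (P : ι → Prop) [DecidablePred P]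
    (hc : ∀ i ∈ J, 0 ≤ c i) (i : ι) (hi : i ∈ J) (hP : P i) :
    c i ≤ ∑ j ∈ J, c j * (if P j then 1 else 0) := by
  have := single_le_sum (f := fun j => c j * (if P j then (1 : ℝ) else 0))
    (fun j hj => by
      have := hc j hj
      positivity) hi
  refine le_trans ?_ this
  rw [if_pos hP, mul_one]

theorem ind_nonneg {ι : Type*} (J : Finset ι) (c : ι → ℝ) (P : ι → Prop) [DecidablePred P]
    (hc : ∀ i ∈ J, 0 ≤ c i) : 0 ≤ ∑ j ∈ J, c j * (if P j then (1 : ℝ) else 0) :=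
  sum_nonneg fun j hj => by
    have := hc j hj
    positivity

open Classical in
theorem sumT {ι α : Type*} (J : Finset ι) (c : ι → ℝ) (P : ι → α → α → Prop) (W : Finset α)
    (M : ℝ) (hM : ∀ w ∈ W, ∑ i ∈ J, c i * ((W.filter (P i w)).card : ℝ) ≤ M) :
    ∑ w ∈ W, ∑ w' ∈ W, ∑ i ∈ J, c i * (if P i w w' then (1 : ℝ) else 0) ≤ W.card * M := by
  have h : ∀ w ∈ W, ∑ w' ∈ W, ∑ i ∈ J, c i * (if P i w w' then (1 : ℝ) else 0) ≤ M := by
    intro w hw
    rw [sum_comm]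
    refine le_trans (le_of_eq ?_) (hM w hw)
    apply sum_congr rfl
    intro i _
    rw [← mul_sum, card_filter]
    push_cast
    rfl
  refine (sum_le_sum h).trans ?_
  rw [sum_const, nsmul_eq_mul]

open Classical in
/-- Chebyshev on a window -/
theorem wcount (A N : ℕ) [NeZero A] (I : Finset ℕ) (a : ℕ → ℕ → ℂ) (lam M : ℝ) (hlam : 0 < lam)
    (Zs : Finset (ZMod A)) (hM : ∑ z ∈ Zs, ∑ y, ‖F A I N a z y‖ ^ 2 ≤ M) :
    (((lev A I N a lam).filter (fun w => w.1 ∈ Zs)).card : ℝ) ≤ M / lam ^ 2 := by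
  rw [le_div_iff₀ (by positivity)]
  refine le_trans ?_ hM
  calc (((lev A I N a lam).filter (fun w => w.1 ∈ Zs)).card : ℝ) * lam ^ 2
      = ∑ w ∈ (lev A I N a lam).filter (fun w => w.1 ∈ Zs), lam ^ 2 := by
        rw [sum_const, nsmul_eq_mul]
    _ ≤ ∑ w ∈ (lev A I N a lam).filter (fun w => w.1 ∈ Zs), ‖F A I N a w.1 w.2‖ ^ 2 := by
        apply sum_le_sum
        intro w hw
        rw [mem_filter, lev, mem_filter] at hw
        exact pow_le_pow_left₀ hlam.le hw.1.2 2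
    _ ≤ ∑ w ∈ Zs ×ˢ (univ : Finset (ZMod A)), ‖F A I N a w.1 w.2‖ ^ 2 := by
        apply sum_le_sum_of_subset_of_nonneg
        · intro w hw
          rw [mem_filter] at hw
          rw [mem_product]
          exact ⟨hw.2, mem_univ _⟩
        · intro _ _ _; positivity
    _ = _ := by rw [sum_product]

open Classical in
theorem near_cnt (A : ℕ) [NeZero A] (δ1 δ2 : ℝ) (h1 : 1 ≤ A * δ1) (h2 : 1 ≤ A * δ2) (v : ℕ)
    (w : ZMod A × ZMod A) (W : Finset (ZMod A × ZMod A)) :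
    ((W.filter fun w' => Near A δ1 δ2 v w w').card : ℝ) ≤ v ^ 2 * (9 * (δ1 * δ2 * A ^ 2)) := by
  set Y : ℕ × ℕ → Finset (ZMod A × ZMod A) := fun q =>
    (univ.filter fun x : ZMod A => nrm A (x - (w.1 + ((q.1 * (A / v) : ℕ) : ZMod A))) ≤ δ1)
      ×ˢ (univ.filter fun x : ZMod A =>
        nrm A (x - (w.2 + ((q.2 * (A / v) : ℕ) : ZMod A))) ≤ δ2) with hYdef
  have hYcard : ∀ q, ((Y q).card : ℝ) ≤ 9 * (δ1 * δ2 * A ^ 2) := by
    intro q
    rw [hYdef]
    simp only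
    rw [card_product]
    push_cast
    have e1 := card_nrm_le3 (w.1 + ((q.1 * (A / v) : ℕ) : ZMod A)) δ1 h1
    have e2 := card_nrm_le3 (w.2 + ((q.2 * (A / v) : ℕ) : ZMod A)) δ2 h2
    push_cast at e1 e2
    calc _ ≤ (3 * (A * δ1)) * (3 * (A * δ2)) := by
          apply mul_le_mul e1 e2 (by positivity) (by linarith)
      _ = 9 * (δ1 * δ2 * A ^ 2) := by ring
  have hsub : (W.filter fun w' => Near A δ1 δ2 v w w') ⊆ (range v ×ˢ range v).biUnion Y := by
    intro w' hw'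
    rw [mem_filter] at hw'
    obtain ⟨-, a, b, f1, f2, f3, f4, f5⟩ := hw'
    simp only [mem_biUnion, mem_product, mem_range]
    refine ⟨(a, b), ⟨f1, f2⟩, ?_⟩
    rw [hYdef]
    simp only [mem_product, mem_filter, mem_univ, true_and]
    constructor
    · rw [← sub_sub]; exact f4
    · rw [← sub_sub]; exact f5
  have h3 : ((W.filter fun w' => Near A δ1 δ2 v w w').card : ℝ) ≤
      ∑ q ∈ range v ×ˢ range v, ((Y q).card : ℝ) := by
    exact_mod_cast (card_le_card hsub).trans card_biUnion_le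
  refine h3.trans ((sum_le_sum fun q _ => hYcard q).trans ?_)
  rw [sum_const, nsmul_eq_mul, card_product, card_range]
  push_cast
  apply le_of_eq
  ring

theorem sgdiv : ∀ ε : ℝ, 0 < ε → ∃ C : ℝ, 0 < C ∧ ∀ V : ℕ,
    (∑ v ∈ Icc 1 V, (sg v : ℝ) / v) ≤ C * (V : ℝ) ^ ε := by
  intro ε hε
  obtain ⟨C1, hC1, h1⟩ := sg_sum ε hε
  have hr : (2 : ℝ) ^ (-ε) < 1 := Real.rpow_lt_one_of_one_lt_of_neg (by norm_num) (by linarith)
  have hr0 : 0 < 1 - (2 : ℝ) ^ (-ε) := by linarith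
  refine ⟨2 * C1 / (1 - (2 : ℝ) ^ (-ε)), by positivity, ?_⟩
  set C := 2 * C1 / (1 - (2 : ℝ) ^ (-ε)) with hC
  have hCpos : 0 < C := by positivity
  have hCeq : C * (2 : ℝ) ^ (-ε) + 2 * C1 = C := by
    rw [hC]; field_simp; ring
  intro V
  induction V using Nat.strong_induction_on with
  | _ V ih =>
  rcases Nat.eq_zero_or_pos V with h0 | hpos
  · subst h0
    simp
    positivity
  have hlt : V / 2 < V := Nat.div_lt_self hpos (by norm_num)
  have hV0 : (0 : ℝ) < V := by exact_mod_cast hpos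
  have hsplit : Icc 1 V = Icc 1 (V / 2) ∪ Ioc (V / 2) V := by
    ext x
    simp only [mem_Icc, mem_union, mem_Ioc]
    omega
  have hdis : Disjoint (Icc 1 (V / 2)) (Ioc (V / 2) V) := by
    rw [disjoint_left]
    intro x hx hx'
    simp only [mem_Icc] at hx
    simp only [mem_Ioc] at hx'
    omega
  rw [hsplit, sum_union hdis]
  have hA := ih (V / 2) hlt
  have hB : (∑ v ∈ Ioc (V / 2) V, (sg v : ℝ) / v) ≤ 2 * C1 * (V : ℝ) ^ ε := by
    have e1 : (∑ v ∈ Ioc (V / 2) V, (sg v : ℝ) / v) ≤ ∑ v ∈ Ioc (V / 2) V, (sg v : ℝ) * (2 / V) := by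
      apply sum_le_sum
      intro v hv
      rw [mem_Ioc] at hv
      rw [div_eq_mul_inv]
      apply mul_le_mul_of_nonneg_left _ (by positivity)
      have hv0 : (0 : ℝ) < v := by
        have : 0 < v := by omega
        exact_mod_cast this
      rw [inv_le_comm₀ hv0 (by positivity), inv_div]
      have : V ≤ 2 * v := by omega
      have : (V : ℝ) ≤ 2 * v := by exact_mod_cast this
      linarith
    have e2 : (∑ v ∈ Ioc (V / 2) V, (sg v : ℝ)) ≤ C1 * (V : ℝ) ^ (1 + ε) := by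
      have := h1 V 1 hpos le_rfl
      simp only [one_dvd, filter_true, Nat.cast_one, Real.sqrt_one, div_one] at this
      refine le_trans (sum_le_sum_of_subset_of_nonneg ?_ (fun _ _ _ => by positivity)) this
      intro x hx
      rw [mem_Ioc] at hx
      rw [mem_Icc]
      omega
    refine e1.trans ?_
    rw [← sum_mul]
    calc _ ≤ (C1 * (V : ℝ) ^ (1 + ε)) * (2 / V) := mul_le_mul_of_nonneg_right e2 (by positivity)
      _ = 2 * C1 * (V : ℝ) ^ ε := by
        rw [Real.rpow_add hV0, Real.rpow_one]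
        field_simp
  have hA2 : C * ((V / 2 : ℕ) : ℝ) ^ ε ≤ C * (2 : ℝ) ^ (-ε) * (V : ℝ) ^ ε := by
    rw [mul_assoc]
    apply mul_le_mul_of_nonneg_left _ hCpos.le
    have e1 : ((V / 2 : ℕ) : ℝ) ≤ V / 2 := by
      have := @Nat.cast_div_le ℝ _ _ _ V 2
      exact_mod_cast this
    calc ((V / 2 : ℕ) : ℝ) ^ ε ≤ ((V : ℝ) / 2) ^ ε :=
          Real.rpow_le_rpow (by positivity) e1 hε.le
      _ = _ := by
        rw [Real.div_rpow hV0.le (by norm_num), Real.rpow_neg (by norm_num)]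
        field_simp
  calc _ ≤ C * (2 : ℝ) ^ (-ε) * (V : ℝ) ^ ε + 2 * C1 * (V : ℝ) ^ ε :=
        add_le_add (hA.trans hA2) hB
    _ = (C * (2 : ℝ) ^ (-ε) + 2 * C1) * (V : ℝ) ^ ε := by ring
    _ = C * (V : ℝ) ^ ε := by rw [hCeq]

theorem geo45 (K : ℕ) : ∑ k ∈ range K, ((4 : ℝ) / 5) ^ k ≤ 5 := by
  have h : ∑ k ∈ range K, ((4 : ℝ) / 5) ^ k = 5 * (1 - (4 / 5) ^ K) := by
    induction K with
    | zero => simp
    | succ n ih => rw [sum_range_succ, ih, pow_succ]; ring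
  rw [h]
  have : (0 : ℝ) ≤ (4 / 5) ^ K := by positivity
  linarith

theorem geo3 (K : ℕ) (s : ℝ) (hs : 0 < s) :
    ∑ k ∈ range K, ((2 : ℝ) ^ k * s) ^ (-(1 / 3) : ℝ) ≤ 5 * s ^ (-(1 / 3) : ℝ) := by
  have hr : (2 : ℝ) ^ (-(1 / 3) : ℝ) ≤ 4 / 5 := by
    have h1 : ((2 : ℝ) ^ (-(1 / 3) : ℝ)) ^ (3 : ℕ) ≤ (4 / 5 : ℝ) ^ (3 : ℕ) := by
      rw [← Real.rpow_natCast ((2 : ℝ) ^ (-(1 / 3) : ℝ)) 3, ← Real.rpow_mul (by norm_num)]
      norm_num
    exact le_of_pow_le_pow_left₀ (by norm_num) (by norm_num) h1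
  have h2 : ∀ k ∈ range K, ((2 : ℝ) ^ k * s) ^ (-(1 / 3) : ℝ) ≤
      (4 / 5 : ℝ) ^ k * s ^ (-(1 / 3) : ℝ) := by
    intro k _
    rw [Real.mul_rpow (by positivity) hs.le]
    apply mul_le_mul_of_nonneg_right _ (by positivity)
    rw [← Real.rpow_natCast 2 k, ← Real.rpow_mul (by norm_num), mul_comm (k : ℝ),
      Real.rpow_mul (by norm_num), Real.rpow_natCast]
    exact pow_le_pow_left₀ (by positivity) hr k
  refine (sum_le_sum h2).trans ?_
  rw [← sum_mul]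
  exact mul_le_mul_of_nonneg_right (geo45 K) (by positivity)

end Stz.H6
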